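import Pool.Agent.Lib.MP_aa40d3_nt.GC.Loc

/-! Algebras without invariant ideals. -/

open Matrix

namespace Pool.Agent.GR.GC

variable {G : Type} [Group G] {d m : ℕ} {σ : G →* Mt m}

/-- No proper invariant ideal. -/
def SimpZ (σ : G →* Mt m) (Z : Subalgebra ℂ (Mt m)) : Prop :=
  ∀ J : Submodule ℂ (Mt m), (∀ y ∈ J, y ∈ Z) → (∀ z ∈ Z, ∀ y ∈ J, z * y ∈ J) →
    (∀ γ, ∀ y ∈ J, σ γ * y * σ γ⁻¹ ∈ J) → J = ⊥ ∨ (1 : Mt m) ∈ J

/-- Take for `J` the image of `Ring.jacobson Z` (`wed_jac`,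
`IsArtinianRing.isSemisimpleRing_iff_jacobson`, `Ring.jacobson_lt_top`). -/
theorem SimpZ.semi [NeZero m] {Z : Subalgebra ℂ (Mt m)} (h : SimpZ σ Z) (hZ : InvR σ Z) :
    IsSemisimpleRing Z := by
  have : IsArtinianRing Z := IsArtinianRing.of_finite ℂ Z
  rw [IsArtinianRing.isSemisimpleRing_iff_jacobson]
  rcases h (((Ring.jacobson Z).restrictScalars ℂ).map Z.val.toLinearMap)
    (by rintro _ ⟨y, -, rfl⟩; exact y.2)
    (by rintro z hz _ ⟨y, hy, rfl⟩; exact ⟨⟨z, hz⟩ * y, (Ring.jacobson Z).mul_mem_left _ hy, rfl⟩)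
    (by rintro γ _ ⟨y, hy, rfl⟩; exact ⟨_, wed_jac hZ γ hy, rfl⟩) with e | ⟨y, hy, e⟩
  · refine eq_bot_iff.2 fun y hy => Subtype.ext ?_
    exact (Submodule.eq_bot_iff _).1 e _ ⟨y, hy, rfl⟩
  · have h1 : y = 1 := Subtype.ext e
    exact absurd ((Ideal.eq_top_iff_one _).2 (h1 ▸ hy)) (Ring.jacobson_lt_top Z).ne

/-- Take for `J` the members of `Z` killed by all `e l` with `l` outside the orbit of `i`. -/
theorem SimpZ.trans {Z : Subalgebra ℂ (Mt m)} (h : SimpZ σ Z) (hZ : InvR σ Z) (b : BR σ d)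
    (h0 : ∀ i, b.e i ≠ 0) (hm : ∀ i, b.e i ∈ Z) : b.bs.Trans ⊤ Finset.univ := by
  intro i _ j _
  by_contra hn
  let J : Submodule ℂ (Mt m) :=
    { carrier := {y | y ∈ Z ∧ ∀ l, (∀ x, b.π x i ≠ l) → y * b.e l = 0}
      add_mem' := fun hx hy => ⟨add_mem hx.1 hy.1, fun l hl => by
        rw [add_mul, hx.2 l hl, hy.2 l hl, add_zero]⟩
      zero_mem' := ⟨zero_mem _, fun l _ => zero_mul _⟩
      smul_mem' := fun c y hy => ⟨Z.smul_mem hy.1 c, fun l hl => by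
        rw [smul_mul_assoc, hy.2 l hl, smul_zero]⟩ }
  rcases h J (fun y hy => hy.1)
    (fun z hz y hy => ⟨mul_mem hz hy.1, fun l hl => by rw [mul_assoc, hy.2 l hl, mul_zero]⟩)
    (fun γ y hy => ⟨hZ γ y hy.1, fun l hl => by
      rw [mul_assoc, b.act, ← mul_assoc, mul_assoc (σ γ), hy.2 _ fun x e => hl (γ * x) (by
        rw [map_mul, Equiv.Perm.mul_apply, e, ← Equiv.Perm.mul_apply, ← map_mul, mul_inv_cancel,
          map_one, Equiv.Perm.one_apply]), mul_zero, zero_mul]⟩) with e | e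
  · exact h0 i ((Submodule.eq_bot_iff _).1 e _ ⟨hm i, fun l hl => b.orth i l fun e =>
      hl 1 (by rw [map_one, Equiv.Perm.one_apply, e])⟩)
  · exact h0 j ((one_mul _).symm.trans (e.2 j fun x hx => hn ⟨x, Subgroup.mem_top x, hx⟩))

end Pool.Agent.GR.GC
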