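import Pool.Agent.Lib.MP_aa40d3_nt.GD.Ind
import Pool.Agent.Lib.MP_aa40d3_nt.GD.Simp

/-! The monodromy group of a connected covering is finite. -/

open Matrix

namespace Pool.Agent.GR.GC

theorem finite_big2 (r : ℕ) (hr : 1 ≤ r) : ∃ k : ℕ, ∀ (d m : ℕ) (G : Type) [Group G]
    (σ : G →* Mt m) (b : BR σ d) (l : List G), r + 2 ≤ d → gen l = ⊤ →
    b.bs.Trans ⊤ Finset.univ →
    (∀ i, (b.e i).rank = r) → (∀ x ∈ l, (σ x - 1).rank ≤ r) → (σ l.prod - 1).rank ≤ r → FinL l →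
    2 * d + k ≤ b.bs.cnt l → Finite G := by
  obtain ⟨k, hk⟩ := finite_small2 r hr
  refine ⟨k, fun d m G _ σ b l hd hg ht hrk hl hp hf hc => ?_⟩
  have h0 : ∀ i, b.e i ≠ 0 := fun i e => by
    have := hrk i
    rw [e, Matrix.rank_zero] at this
    omega
  have hok : ∀ x ∈ l, b.bs.Ok r x := fun x hx => b.ok hr hrk (hl x hx)
  obtain ⟨S₀, h1, h2⟩ := (b.ok hr hrk hp).supp hr
  obtain ⟨c, rfl⟩ := Nat.exists_eq_add_of_le hd
  obtain ⟨S, -, hS, A, B, h3, h4, h5, h6⟩ := reduce hr h1 c Finset.univ l (by simp) hok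
    (fun x _ j hj => absurd (Finset.mem_univ j) hj) (hg ▸ ht) h2
  rw [hg] at h5
  obtain ⟨i, hi⟩ : S.Nonempty := Finset.card_pos.1 (by omega)
  suffices Finite (gen A) from BS.finite_of_agree ht hi h5
  obtain ⟨m', σ', b', k1, k2, k3, k4, k5, -⟩ := b.restrict (gen A) h4
  let l' : List (gen A) := A.pmap Subtype.mk fun _ => mem_gen
  have hl' : l'.map (gen A).subtype = A := by
    simp only [l', List.map_pmap, Subgroup.coe_subtype, List.pmap_eq_map, List.map_id']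
  have hm : ∀ x : gen A, x ∈ l' ↔ x.val ∈ A := fun x =>
    (List.mem_map_of_injective (gen A).subtype_injective).symm.trans
      (iff_of_eq (congrArg (fun L => x.val ∈ L) hl'))
  have hπ : ∀ y, b'.bs.π y = b.bs.π y.val := k2
  have hK : ∀ y i, y ∈ b'.bs.K i ↔ y.val ∈ b.bs.K i := k3
  refine hk m' (k1.trans ?_) _ (gen A) σ' b' S l' (k5 i hi (h0 i)) hS ?_ (fun x hx => ?_)
    (fun x _ j hj => (hK x j).2 (h4 x x.2 j hj)) (fun u hu v hv => ?_) k4
    (FinL.of_map (gen A).subtype_injective (hl'.symm ▸ (hf.hur h3).left)) ?_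
  · simp only [hrk, Finset.sum_const, hS, smul_eq_mul, le_refl]
  · apply Subgroup.map_injective (gen A).subtype_injective
    rw [← MonoidHom.range_eq_map, Subgroup.range_subtype]
    refine (MonoidHom.map_closure _ _).trans (congrArg Subgroup.closure ?_)
    ext x
    exact ⟨fun ⟨y, hy, e⟩ => e ▸ (hm y).1 hy, fun hx => ⟨⟨x, mem_gen hx⟩, (hm _).2 hx, rfl⟩⟩
  · rcases h3.all (P := b.bs.Ok r) (fun γ x h => BS.Ok.conj h γ) hok x (List.mem_append_left _ ((hm x).1 hx)) with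
      ⟨u, v, e1, e2, e3, e4⟩ | ⟨e1, T, e2, e3⟩
    · exact Or.inl ⟨u, v, e1, (hπ x).trans e2, Subtype.ext e3, fun w a1 a2 =>
        (hK x w).2 (e4 w a1 a2)⟩
    · exact Or.inr ⟨(hπ x).trans e1, T, e2, fun w a1 => (hK x w).2 (e3 w a1)⟩
  · obtain ⟨x, hx, e⟩ := h5.trans_of ht (Finset.subset_univ S) u hu v hv
    exact ⟨⟨x, hx⟩, Subgroup.mem_top _, by rw [hπ]; exact e⟩
  · have : b'.bs.cnt l' = b.bs.cnt A := by
      conv_rhs => rw [← hl', BS.cnt, List.countP_map]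
      exact List.countP_congr fun x _ => by simp [hπ]
    omega

theorem group_finiteD (r : ℕ) (hr : 1 ≤ r) : ∃ k : ℕ, ∀ (d n : ℕ) (g : Fin n → GLr (r * d))
    (ε : Fin n → Fin (r * d) → ℂ) (ρ : Fin n → ℝ), r + 2 ≤ d → Function.Injective ρ →
    LoopsM Finset.univ ρ g ε → (∀ a, ((g a).val - 1).rank ≤ r) →
    (∀ L, LowerL ρ L → (∀ a, a ∈ L) → IsOfFinOrder (L.map g).prod →
      (((L.map g).prod).val - 1).rank ≤ r) →
    ∀ Z : Subalgebra ℂ (Mt (r * d)),
      SimpZ (incl (Subgroup.closure (Set.range g))) Z →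
      (∀ γ ∈ Subgroup.closure (Set.range g), ∀ x ∈ Z, γ.val * x * (γ⁻¹).val ∈ Z) → CommA Z →
      Module.finrank ℂ Z = d → ∀ M : Finset (Fin n), 2 * d + k ≤ M.card →
      (∀ a ∈ M, ∃ x ∈ Z, (g a).val * x ≠ x * (g a).val) →
      Finite (Subgroup.closure (Set.range g)) := by
  classical
  obtain ⟨k, hk⟩ := finite_big2 r hr
  refine ⟨k, fun d n g ε ρ hd hρ ho hrk hinf Z hI hZ hc hfr M hM hMa => ?_⟩
  obtain ⟨L0, h1, h2⟩ := exists_lowerL hρ Finset.univ fun _ _ _ _ => Finset.mem_univ _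
  have h0 : L0.Nodup := h1.1.imp fun hab e => hab.ne (congrArg _ e)
  have hall : ∀ a, a ∈ L0 := fun a => List.mem_toFinset.1 (h2 ▸ Finset.mem_univ a)
  have hS := ho.loopsS h1
  set Γ := Subgroup.closure (Set.range g) with hΓ
  let g' : Fin n → Γ := fun a => ⟨g a, Subgroup.subset_closure ⟨a, rfl⟩⟩
  have hg : Subgroup.closure (Set.range g') = ⊤ := by
    apply Subgroup.map_injective Γ.subtype_injective
    rw [MonoidHom.map_closure, ← Set.range_comp, ← MonoidHom.range_eq_map, Subgroup.range_subtype]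
    rfl
  have hl : ∀ x, IsLoop Finset.univ L0 g' x → IsOfFinOrder x := fun x hx => by
    obtain ⟨l, R, h, k1, k2, k3⟩ := hx.map Γ.subtype
    have k4 := (hS l R h k1 k2).1
    rw [← k3] at k4
    exact (incl_inj Γ).isOfFinOrder_iff.1 k4
  have hZ' : InvR (incl Γ) Z := fun γ => hZ γ γ.2
  have : NeZero (r * d) := ⟨Nat.mul_ne_zero (by omega) (by omega)⟩
  have := hI.semi hZ'
  obtain ⟨e, e0, e1, e2, e3, e4⟩ := exists_idemS hc hfr
  obtain ⟨b, rfl⟩ := exists_BR (incl_inj Γ) hZ' e0 e1 e2 e3 e4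
  have hE := hI.trans hZ' b e0 e1
  have hf := finL_of_fin h0 hl
  have hp : ((L0.map g').prod).val = (L0.map g).prod := by
    rw [← Γ.coe_subtype, map_list_prod, List.map_map]
    rfl
  refine hk d _ Γ (incl Γ) b (L0.map g') hd ?_ hE (b.rank_eq hE rfl)
    (fun x hx => ?_) ?_ hf (hM.trans ?_)
  · rw [← hg, gen]
    congr 1
    ext x
    simp [hall]
  · obtain ⟨a, -, rfl⟩ := List.mem_map.1 hx
    exact hrk a
  · rw [incl_apply, hp]
    refine hinf L0 h1 hall ?_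
    rw [← hp]
    exact Γ.subtype.isOfFinOrder (hf _ [] (by simpa using Hur.refl _))
  · rw [BS.cnt, List.countP_map, List.countP_eq_length_filter,
      ← List.toFinset_card_of_nodup (h0.filter _)]
    refine Finset.card_le_card fun a ha => ?_
    obtain ⟨x, hx, h3⟩ := hMa a ha
    refine List.mem_toFinset.2 (List.mem_filter.2 ⟨hall a, decide_eq_true fun h4 => h3 ?_⟩)
    obtain ⟨c, rfl⟩ := e4 x hx
    rw [Finset.mul_sum, Finset.sum_mul]
    refine Finset.sum_congr rfl fun i _ => ?_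
    have h5 := b.act (g' a) i
    rw [show b.π (g' a) = 1 from h4] at h5
    rw [Matrix.mul_smul, Matrix.smul_mul]
    exact congrArg _ h5

end Pool.Agent.GR.GC
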