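import Pool.Agent.Lib.MP_aa40d3_nt.GD.Simp
import Pool.Agent.Lib.MP_aa40d3_nt.GC.Fib

/-! If the algebra is a field then the fibre has no invariant ideal. -/

open Polynomial Matrix Set Filter Topology
open scoped Matrix.Norms.Operator

namespace Pool.Agent.GR.GC

variable {n N : ℕ}

theorem fld_sat {R M : Type*} [CommRing R] [IsDomain R] [IsNoetherianRing R] [AddCommGroup M]
    [Module R M] [Module.Finite R M] {P Q : Submodule R M} (h : P ≤ Q)
    (e : Module.finrank R Q = Module.finrank R P) {x : M} (hx : x ∈ Q) :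
    ∃ q : R, q ≠ 0 ∧ q • x ∈ P := by
  by_contra hc
  obtain ⟨f, hf⟩ := exists_linearIndependent_of_le_finrank (R := R) (M := P) le_rfl
  have h1 : LinearIndependent R fun i => (⟨(f i).1, h (f i).2⟩ : Q) :=
    LinearIndependent.of_comp Q.subtype (hf.map' P.subtype (Submodule.ker_subtype _))
  have h2 := LinearIndependent.finCons' (⟨x, hx⟩ : Q) _ h1 (by
    intro c y hy h0
    by_contra hc0
    refine hc ⟨c, hc0, ?_⟩
    have h3 : (y : M) ∈ P := by
      refine Submodule.span_induction (p := fun y _ => ((y : Q) : M) ∈ P) ?_ P.zero_mem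
        (fun _ _ _ _ a b => P.add_mem a b) (fun a _ _ b => P.smul_mem a b) hy
      rintro _ ⟨i, rfl⟩
      exact (f i).2
    have h4 : c • x + (y : M) = 0 := congrArg Subtype.val h0
    rw [eq_neg_of_add_eq_zero_left h4]
    exact P.neg_mem h3)
  have h3 := h2.fintype_card_le_finrank
  rw [Fintype.card_fin, e] at h3
  omega

/-- Let `J ≠ ⊥`, `0 ≠ z₀ ∈ J`. `MP.fact_onto` gives `Φ ≠ 0` in `primW U Y J`, which lies in
`primW U Y Z`, `Z = fib W x₀`. `W ≤ primW U Y Z` have the same rank (`fib_rank`, `MP.fact_rank`),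
so `q • Φ ∈ W` for some `q ≠ 0` and `Φ.det ≠ 0`. At a point `x ∈ U` that is not a root of `Φ.det`
we find an invertible `z ∈ J`; the injective linear map `y ↦ y * z` of `Z` is onto, so `1 ∈ J`. -/
theorem simp_of_field [NeZero N] {t : Fin n → ℂ} {g : Fin n → (Mat N)ˣ} {D : ℕ} (hD : 0 < D)
    (hζ : ∀ a, (g a).val ^ D = 1) {U : Set ℂ} (hU : U.Infinite) {x₀ : ℂ} (hx₀ : x₀ ∈ U)
    (hne : ∀ i, x₀ ≠ t i) {Y : ℂ → Mat N} (hY0 : Y x₀ = 1) (hY : ∀ x ∈ U, (Y x).det ≠ 0)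
    (he : ExtProp t g U Y) {W : Subalgebra ℂ[X] (Matrix (Fin N) (Fin N) ℂ[X])}
    (hF : ∀ Φ ∈ W, Φ ≠ 0 → Φ.det ≠ 0)
    (hW : ∀ Φ ∈ W, Φ ∈ primW U Y (Subalgebra.toSubmodule (fib W x₀))) :
    SimpZ (incl (Subgroup.closure (Set.range g))) (fib W x₀) := by
  intro J hJZ hJl hJc
  by_cases hJ : J = ⊥
  · exact Or.inl hJ
  refine Or.inr ?_
  obtain ⟨z₀, hz₀, h0⟩ := Submodule.exists_mem_ne_zero_of_ne_bot hJ
  obtain ⟨Φ, hΦ, c, hc, e⟩ := MP.fact_onto hD hζ hx₀ hne hY0 he (Z := J)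
    (fun γ hγ y hy => hJc ⟨γ, hγ⟩ y hy) hz₀
  have hΦ0 : Φ ≠ 0 := by
    rintro rfl
    rw [Matrix.map_zero _ eval_zero] at e
    exact h0 ((smul_eq_zero.1 e.symm).resolve_left hc)
  have hΦZ : Φ ∈ primW U Y (Subalgebra.toSubmodule (fib W x₀)) := fun x hx => by
    obtain ⟨z, hz, e'⟩ := hΦ x hx
    exact ⟨z, hJZ z hz, e'⟩
  have r1 := fib_rank hU hY hW
  have r2 := MP.fact_rank (x₀ := x₀) hU hY (Z := Subalgebra.toSubmodule (fib W x₀))
    (fun z hz => by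
      obtain ⟨Ψ, hΨ, e'⟩ := mem_fib.1 hz
      exact ⟨Ψ, hW Ψ hΨ, 1, one_ne_zero, by rw [one_smul, e']⟩)
  obtain ⟨q, hq, hqΦ⟩ := fld_sat (P := Subalgebra.toSubmodule W) (fun Ψ hΨ => hW Ψ hΨ)
    (r2.trans r1) hΦZ
  have hd : Φ.det ≠ 0 := by
    intro hd
    refine hF _ hqΦ (smul_ne_zero hq hΦ0) ?_
    rw [det_smul, hd, mul_zero]
  obtain ⟨x, hx, hxr⟩ : ∃ x ∈ U, Φ.det.eval x ≠ 0 := by
    by_contra hn
    refine hd (Polynomial.eq_zero_of_infinite_isRoot _ (hU.mono fun x hx => ?_))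
    by_contra h1
    exact hn ⟨x, hx, h1⟩
  obtain ⟨z, hz, e'⟩ := hΦ x hx
  have hzd : z.det ≠ 0 := by
    intro h1
    have h2 := congrArg Matrix.det e'
    have h3 : (Φ.map (eval x)).det = Φ.det.eval x := ((evalRingHom x).map_det Φ).symm
    rw [det_mul, det_mul, h1, mul_zero, h3] at h2
    exact mul_ne_zero hxr (hY x hx) h2
  let L : fib W x₀ →ₗ[ℂ] fib W x₀ := LinearMap.mulRight ℂ ⟨z, hJZ z hz⟩
  have hL : Function.Injective L := by
    intro a b hab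
    have h1 : (a : Mat N) * z = (b : Mat N) * z := congrArg Subtype.val hab
    refine Subtype.ext ?_
    rw [← mul_nonsing_inv_cancel_right z (a : Mat N) hzd.isUnit, h1,
      mul_nonsing_inv_cancel_right z (b : Mat N) hzd.isUnit]
  obtain ⟨y, hy⟩ := LinearMap.injective_iff_surjective.1 hL 1
  have h1 : (y : Mat N) * z = 1 := congrArg Subtype.val hy
  exact h1 ▸ hJl _ y.2 z hz

end Pool.Agent.GR.GC
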