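import Pool.Agent.Lib.MP_aa40d3_nt.CV.WdR
import Pool.Agent.Lib.MP_aa40d3_nt.CV.PushB

/-! The algebra of an irreducible curve has no zero divisors. -/

open Polynomial Matrix
open scoped Polynomial.Bivariate

namespace Pool.Agent.GR.CV

theorem dvd_of_root {R L : Type} [CommRing R] [IsDomain R] [IsIntegrallyClosed R] [Field L]
    {φ : R →+* L} (hφ : Function.Injective φ) {P c : R[X]} (hm : P.Monic) (hP : Irreducible P)
    {y : L} (h1 : P.eval₂ φ y = 0) (h2 : c.eval₂ φ y = 0) : P ∣ c := by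
  let := φ.toAlgebra
  have : FaithfulSMul R L := (faithfulSMul_iff_algebraMap_injective R L).2 hφ
  have hi : IsIntegral R y := ⟨P, hm, h1⟩
  exact ((minpoly.irreducible hi).dvd_symm hP (minpoly.isIntegrallyClosed_dvd hi h1)).trans
    (minpoly.isIntegrallyClosed_dvd hi h2)

variable {N r d : ℕ}

theorem wwd_det {R K : Type} [CommRing R] [Field K] {φ : R →+* K} {V : Matrix (Fin N) (Fin N) K}
    {Mu : Matrix (Fin N) (Fin N) R} {y : Fin d → K} {sh : Fin N → Fin d} (hV : V.det ≠ 0)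
    (hM : Mu.map φ * V = V * diagonal fun j => y (sh j)) {p : Fin d → R}
    (h : (∑ k : Fin d, p k • Mu ^ (k : ℕ)).det = 0) :
    ∃ j, (∑ k : Fin d, C (p k) * X ^ (k : ℕ)).eval₂ φ (y j) = 0 := by
  have h1 : (∑ k : Fin d, p k • Mu ^ (k : ℕ)).map φ * V =
      V * diagonal fun j => (∑ k : Fin d, C (p k) * X ^ (k : ℕ)).eval₂ φ (y (sh j)) := by
    rw [wdr_map_sum, Finset.sum_mul]
    simp only [Matrix.smul_mul, wdr_pow hM]
    ext a b
    simp only [Matrix.sum_apply, Matrix.smul_apply, mul_diagonal, smul_eq_mul, Finset.mul_sum,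
      eval₂_finsetSum, eval₂_mul, eval₂_C, eval₂_X_pow]
    exact Finset.sum_congr rfl fun k _ => by ring
  have h2 := congrArg det h1
  rw [det_mul, det_mul, ← RingHom.mapMatrix_apply, ← RingHom.map_det, h, map_zero, zero_mul,
    det_diagonal] at h2
  obtain ⟨j, -, hj⟩ := Finset.prod_eq_zero_iff.1 ((mul_eq_zero.1 h2.symm).resolve_left hV)
  exact ⟨_, hj⟩

theorem WW_det {x : LL} {V : LM N} {sh : Fin N → Fin d} {ρ : ℂ[X]} {G Mu : PM N} {y : Fin d → LL}
    {e : Fin d → Fin N} {o : Fin N} {P : ℂ[X][Y]} (hm : P.Monic) (hd : P.natDegree = d)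
    (hP : Irreducible P) (h0 : ∀ j, aevalAeval x (y j) P = 0) (hx : Function.Injective (ev x))
    (hρ : ρ ≠ 0) (hV : V.det ≠ 0) (hG : G.det ≠ 0)
    (hM : Mu.map (ev x) * V = V * diagonal fun j => y (sh j)) (hy : Function.Injective y)
    (hp : ∀ k j : Fin d, (Mu ^ (k : ℕ)) (e j) o = if j = k then 1 else 0) :
    ∀ Φ ∈ WW x (ga ρ G x V) sh, Φ ≠ 0 → Φ.det ≠ 0 := by
  intro Φ h hne hdet
  have h1 := WW_rep hx hρ hV hM hy hp h
  have h2 := congrArg det h1
  rw [det_smul, det_mul, hdet, zero_mul, mul_zero, det_mul] at h2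
  obtain ⟨j, hj⟩ := wwd_det (K := LL) hV hM ((mul_eq_zero.1 h2.symm).resolve_left hG)
  have h3 := eq_zero_of_dvd hm hd (dvd_of_root hx hm hP
    (by rw [eval₂_eq_eval_map, ← sep_eval]; exact h0 j) hj)
  have h4 : ∀ k, (G.adjugate * Φ * G) (e k) o = 0 := congrFun h3
  simp only [h4, zero_smul, Finset.sum_const_zero, Matrix.mul_zero] at h1
  have h5 := congrArg (· * G.adjugate) h1
  simp only [Matrix.smul_mul, Matrix.mul_assoc, mul_adjugate, Matrix.mul_smul, Matrix.mul_one,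
    Matrix.zero_mul, smul_smul] at h5
  exact hne ((smul_eq_zero.mp h5).resolve_left (mul_ne_zero hG hG))

/-- As `push_unr`, with the equation of the branches. -/
theorem push_unr' {S : Sys ℂ r} {q : ℂ[X][Y]} {δ : ℂ[X]} {x : LL} (h : Prep S d q δ)
    (hS : S.Unr x d) : ∃ (U : LM (r * d)) (y : Fin d → LL), Function.Injective y ∧
      (∀ j, aevalAeval x (y j) S.P = 0) ∧ MSol (δ * S.D) (pB S d q δ) x U 0 ∧
      (pM S d).map (ev x) * U = U * diagonal fun i => y (sh i) := by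
  obtain ⟨y, hy, hl⟩ := hS
  choose G hG using fun j => pushb_loc (hl j)
  obtain ⟨U, h1, h2, -⟩ := push_loc h hy (B := fun _ => 0) hG
  rw [pushb_bd] at h1
  exact ⟨U, y, hy, fun j => (hl j).1, h1, h2⟩

end Pool.Agent.GR.CV
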