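import Pool.Agent.Lib.MP_aa40d3_nt.CV.Main
import Pool.Agent.Lib.MP_aa40d3_nt.GD.WWdet
import Pool.Agent.Lib.MP_aa40d3_nt.GD.Core8

/-! Systems on an irreducible curve with generic branch points. -/

open Polynomial Matrix
open scoped Polynomial.Bivariate

namespace Pool.Agent.GR.CV

theorem final8 (r : ℕ) (hr : 1 ≤ r) : ∃ k : ℕ, ∀ (d n : ℕ) (R : Type) [CommRing R]
    [Algebra.FiniteType ℤ R] (ι : R →+* ℂ) (S : Sys R r) (t : Fin n → ℂ) (M : Finset (Fin n)),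
    S.P.Monic → S.P.natDegree = d → r + 2 ≤ d → (S.map ι).D ≠ 0 → AlgebraicIndependent ℚ t →
    2 * d + k ≤ M.card → (∀ i ∈ M, (S.map ι).Bra d (t i)) →
    (∀ i, i ∉ M → (S.map ι).Unr (xt (t i) 1) (d - 1)) →
    (∀ c, c ∉ Set.range t → (S.map ι).Unr (xt c 1) d) → (S.map ι).Unr sL⁻¹ d →
    Irreducible (S.map ι).P →
    (∀ m : Ideal R, m.IsMaximal → (S.map (Ideal.Quotient.mk m)).Fund) → (S.map ι).Alg := by
  classical
  obtain ⟨k, hk⟩ := GC.core8 r hr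
  refine ⟨k, fun d n R _ _ ι S t M hP hdeg hd hD ht hM hB hPu hU hI hIrr hF => ?_⟩
  have : NeZero (r * d) := ⟨Nat.mul_ne_zero (by omega) (by omega)⟩
  have : NeZero d := ⟨by omega⟩
  have hinf : ∀ {p : ℂ[X]}, p ≠ 0 → ev sL⁻¹ p ≠ 0 := fun hp => (map_ne_zero_iff _ ev_inv_inj).2 hp
  obtain ⟨q, δ, hp, hδ⟩ : ∃ q δ, Prep S d q δ ∧ δ.map ι ≠ 0 := by
    obtain ⟨y, hy, h⟩ := hI
    exact exists_prep ι hP hdeg (by omega) hy fun j => (h j).1
  have hp' := hp.map ι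
  have hD1 := mul_ne_zero hδ hD
  obtain ⟨V, y, hy, hy0, hV, hMu⟩ := push_unr' hp' hI
  have hK := katz ι (D := δ * S.D) (B := pB S d q δ) hδ (by rwa [Polynomial.map_mul])
    fun R' _ _ j m _ => hf_red hp hF j m
  rw [Polynomial.map_mul, pB_map hP] at hK
  obtain ⟨U, hFr, hτ⟩ := exists_frames hr (by omega) hp' hδ hK ht.injective hB hPu hU
  obtain ⟨ρ, G₁, A₁, hρ, hG₁, g₁, hNF, hrk, hhalf⟩ := exists_fuchs ht.injective hD1 hFr hV
  obtain ⟨k', z, A, G₂, hz, hG₂, g₂, hcyc, hsum, hold, hnew⟩ :=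
    exists_cyc ht (g₁.msol (hinf hD1) (hinf hρ) (hinf hG₁) hV) hNF
  have g := g₁.comp g₂ (dl_ne t)
  rw [mul_one] at g
  have hG : (G₂ * G₁).det ≠ 0 := by
    rw [det_mul]
    exact mul_ne_zero hG₂ hG₁
  have hst := WW_stab (sh := sh (r := r) (d := d)) (g.msol (hinf hD1) (hinf hρ) (hinf hG) hV)
    (by rw [sdL_inv]; exact neg_ne_zero.2 (inv_ne_zero sL_ne))
  have hpow := pM_pow hp' (⟨0, hr⟩ : Fin r)
  have hmem := WW_mem (ρ := ρ) (G := G₂ * G₁) hMu 1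
  rw [pow_one] at hmem
  refine push_alg hp' (by omega) (g.algM hD1 hρ hG (algM_of_algSol (hk d _ _ A hd
    ⟨1, 0, one_ne_zero, by simpa using hz⟩ hcyc ⟨_, WW_det hp'.1 hp'.2.1 hIrr hy0 ev_inv_inj hρ hV.1
      hG hMu hy hpow, hst, WW_comm ev_inv_inj (g.msol (hinf hD1) (hinf hρ) (hinf hG) hV).1,
      WW_rank ev_inv_inj hρ hV.1 hG hMu hy hpow, M.map (Fin.castAddEmb k'), by rwa [Finset.card_map],
      fun i' hi' => ?_⟩ (fun i => small_of_rank ?_) (hsum r) (pc_curve ι hp hδ hD hρ hG g hF))))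
  · obtain ⟨i, hi, rfl⟩ := Finset.mem_map.1 hi'
    obtain ⟨j, τ, h1, h2⟩ := hτ i hi
    obtain ⟨u, hu, hu'⟩ := hold i
    have e : Fin.append t z (Fin.castAddEmb k' i) = t i := Fin.append_left t z i
    have hx : ∀ {p : ℂ[X]}, p ≠ 0 → ev (xt (t i) 2) p ≠ 0 := fun hp => ev_xt_ne (by norm_num) hp
    obtain ⟨h3, h4⟩ := (g.msol (hx hD1) (hx hρ) (hx hG) (hFr.2.2 i hi).1).col j
    refine ramAt hz.injective (half_conj hu hu' (hhalf i hi)) hst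
      (fun Φ => WW_sat ev_inv_inj (X_sub_C_ne_zero _)) h3 (by rw [e]; exact h4) (fun Φ hΦ => ?_)
      ⟨_, hmem, ev (xt (t i) 2) (G₂ * G₁).det * τ, ?_, fun h5 => h1 ?_⟩
    · rw [e, ga_col]
      exact eigen_of_rep (hx hG) (WW_rep ev_inv_inj hρ hV.1 hMu hy hpow hΦ) h2 _
    · rw [e, ga_col]
      exact eigen_Mu h2 _
    · rw [sg_mul, sg_ev, sg_xt] at h5
      exact mul_left_cancel₀ (hx hG) h5
  · refine Fin.addCases (fun i => ?_) (fun j => (hnew j).trans hr) i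
    obtain ⟨u, hu, hu'⟩ := hold i
    rw [rank_conj hu hu']
    exact hrk i

end Pool.Agent.GR.CV
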