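import Pool.Agent.Lib.MP_aa40d3_nt.GC.ResA

/-! Passage to a subquotient. -/

open Matrix

namespace Pool.Agent.GR.GC

variable {G : Type} [Group G] {d m : ℕ} {σ : G →* Mt m} {S : Finset (Fin d)}

/-- As `BR.restrict`: `E = P * Q`, `Q * P = 1` (`idem_fac`), `τ x = Q * σ x * P` is a homomorphism
`G →* Mt E.rank`, `N = τ.ker`, `σ' = QuotientGroup.lift`, `e' i = Q * e i * P`. If `x ∈ N` then
`E * e i = E * e (π x i)`, so `π x i = i` for `i ∈ S` (multiply by `e i`); outside `S` use `hs`. -/
theorem BR.compress (b : BR σ d) {E : Mt m} (hE : E * E = E) (he : ∀ i, E * b.e i = b.e i * E)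
    (hσ : ∀ x y, E * σ x * E * σ y * E = E * σ (x * y) * E) (hs : b.bs.Sup ⊤ S)
    (h0 : ∀ i ∈ S, E * b.e i ≠ 0) :
    ∃ (N : Subgroup G) (_ : N.Normal) (σ' : G ⧸ N →* Mt E.rank) (b' : BR σ' d),
      (∀ x, x ∈ N ↔ E * σ x * E = E) ∧ (∀ x : G, b'.π (x : G ⧸ N) = b.π x) ∧
      (∀ (x : G) i, x ∈ b.K i → (x : G ⧸ N) ∈ b'.K i) ∧ ∀ i, b.e i = 0 → b'.e i = 0 := by
  obtain ⟨P, Q, hQP, hPQ⟩ := idem_fac hE
  generalize E.rank = m' at P Q hQP hPQ ⊢
  have EP : E * P = P := by rw [← hPQ, Matrix.mul_assoc, hQP, Matrix.mul_one]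
  have QE : Q * E = Q := by rw [← hPQ, ← Matrix.mul_assoc, hQP, Matrix.one_mul]
  have mid : ∀ x y : Mt m, Q * x * P * (Q * y * P) = Q * (x * E * y) * P := fun x y => by
    simp only [← hPQ, Matrix.mul_assoc]
  have sand : ∀ x : Mt m, Q * (E * x * E) * P = Q * x * P := fun x => by
    rw [Matrix.mul_assoc, Matrix.mul_assoc, EP, Matrix.mul_assoc, ← Matrix.mul_assoc Q E, QE,
      Matrix.mul_assoc]
  have key : ∀ x y : Mt m, E * y = y * E → Q * x * P * (Q * y * P) = Q * (x * y) * P := by
    intro x y h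
    rw [mid, Matrix.mul_assoc x, h]
    simp only [Matrix.mul_assoc, EP]
  have key' : ∀ x y : Mt m, E * x = x * E → Q * x * P * (Q * y * P) = Q * (x * y) * P := by
    intro x y h
    rw [mid, ← h]
    simp only [← Matrix.mul_assoc, QE]
  have back : ∀ x : Mt m, P * (Q * x * P) * Q = E * x * E := fun x => by
    simp only [← hPQ, Matrix.mul_assoc]
  let τ : G →* Mt m' :=
    { toFun := fun y => Q * σ y * P
      map_one' := by rw [map_one, Matrix.mul_one, hQP]
      map_mul' := fun x y => by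
        rw [mid, ← sand (σ (x * y)), ← hσ, ← sand (σ x * E * σ y)]
        simp only [Matrix.mul_assoc] }
  have hN : ∀ x, x ∈ τ.ker ↔ E * σ x * E = E := fun x => by
    rw [MonoidHom.mem_ker]
    change Q * σ x * P = 1 ↔ _
    constructor
    · intro h
      rw [← back, h, Matrix.mul_one, hPQ]
    · intro h
      rw [← sand, h, QE, hQP]
  have hπ : τ.ker ≤ b.π.ker := fun x hx => by
    rw [MonoidHom.mem_ker]
    refine Equiv.ext fun i => ?_
    by_cases hi : i ∈ S
    · by_contra hne
      apply h0 i hi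
      have h1 : E * b.e i = E * b.e (b.π x i) := by
        calc E * b.e i = E * σ x * E * b.e i := by rw [(hN x).1 hx]
          _ = E * (σ x * b.e i) * E := by simp only [Matrix.mul_assoc, he]
          _ = b.e (b.π x i) * (E * σ x * E) := by
            rw [b.act, ← Matrix.mul_assoc, he]
            simp only [Matrix.mul_assoc]
          _ = E * b.e (b.π x i) := by rw [(hN x).1 hx, he]
      rw [← b.idem i, ← Matrix.mul_assoc, h1, Matrix.mul_assoc, b.orth (b.π x i) i hne, Matrix.mul_zero]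
    · exact (hs x trivial i hi).1
  let σ' : G ⧸ τ.ker →* Mt m' := QuotientGroup.lift τ.ker τ fun _ hx => hx
  let b' : BR σ' d :=
    { e := fun i => Q * b.e i * P
      π := QuotientGroup.lift τ.ker b.π hπ
      orth := fun i j h => by rw [key _ _ (he j), b.orth i j h, Matrix.mul_zero, Matrix.zero_mul]
      sum := by rw [← Matrix.sum_mul, ← Matrix.mul_sum, b.sum, Matrix.mul_one, hQP]
      act := fun x i => by
        obtain ⟨x, rfl⟩ := QuotientGroup.mk_surjective x
        change Q * σ x * P * (Q * b.e i * P) = Q * b.e (b.π x i) * P * (Q * σ x * P)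
        rw [key _ _ (he i), key' _ _ (he _), b.act]
      inj := fun x y h => by
        obtain ⟨x, rfl⟩ := QuotientGroup.mk_surjective x
        obtain ⟨y, rfl⟩ := QuotientGroup.mk_surjective y
        have h' : τ x = τ y := h
        rw [QuotientGroup.eq, MonoidHom.mem_ker, map_mul, ← h', ← map_mul, inv_mul_cancel,
          map_one] }
  refine ⟨τ.ker, inferInstance, σ', b', hN, fun _ => rfl, fun x i hx => ⟨hx.1, ?_⟩, fun i hi => ?_⟩
  · change Q * σ x * P * (Q * b.e i * P) = Q * b.e i * P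
    rw [key _ _ (he i), hx.2]
  · change Q * b.e i * P = 0
    rw [hi, Matrix.mul_zero, Matrix.zero_mul]

end Pool.Agent.GR.GC
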