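import Pool.Agent.Lib.MP_aa40d3_nt.GC.Loc
import Pool.Agent.Lib.MP_aa40d3_nt.GR.Mono

/-! An invariant subspace that is compatible with the sheets. -/

open Matrix

namespace Pool.Agent.GR.GC

variable {G : Type} [Group G] {d m : ℕ} {σ : G →* Mt m} {S : Finset (Fin d)}

/-- Take `U` from `h` and `V = {v | ∀ γ, e i *ᵥ σ γ *ᵥ v ∈ U}` as in `BR.irr1`; it contains `U` and
is invariant under all `σ γ` and `e j`. With `Q₀` from `mono_proj V` put
`Q = ∑ j, e j * Q₀ * e j`; it is again a projection onto `V`. For `0 ≠ u ∈ U` and `π γ i = j` the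
vector `σ γ *ᵥ u` is fixed by `Q * e j`. If `(1 - Q) * e j = 0` then `e j *ᵥ w ∈ V` for all `w`,
and `π γ j = i` gives `e i *ᵥ v ∈ U` for all `v`. -/
theorem BR.exists_proj (b : BR σ d) (ht : b.bs.Trans ⊤ S) {i : Fin d} (hi : i ∈ S)
    (h : ¬ b.Irr1 ⊤ i) : ∃ Q : Mt m, Q * Q = Q ∧ (∀ j, Q * b.e j = b.e j * Q) ∧
      (∀ x, Q * σ x * Q = σ x * Q) ∧ (∀ j ∈ S, Q * b.e j ≠ 0) ∧
      ∀ j ∈ S, (1 - Q) * b.e j ≠ 0 := by
  unfold BR.Irr1 at h
  push Not at h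
  obtain ⟨U, h1, h2, hU, w, hw⟩ := h
  let V : Submodule ℂ (Fin m → ℂ) :=
    { carrier := {v | ∀ γ, b.e i *ᵥ σ γ *ᵥ v ∈ U}
      add_mem' := fun {v w} hv hw γ => by
        rw [mulVec_add, mulVec_add]
        exact U.add_mem (hv γ) (hw γ)
      zero_mem' := fun γ => by
        rw [mulVec_zero, mulVec_zero]
        exact U.zero_mem
      smul_mem' := fun c v hv γ => by
        rw [mulVec_smul, mulVec_smul]
        exact U.smul_mem c (hv γ) }
  have hV : ∀ γ, ∀ v ∈ V, σ γ *ᵥ v ∈ V := fun γ v hv δ => by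
    have h := hv (δ * γ)
    rwa [map_mul, ← mulVec_mulVec] at h
  have hle : U ≤ V := fun v hv γ => by
    by_cases h : b.π γ i = i
    · have h3 := h2 γ (Subgroup.mem_top γ) h v hv
      rwa [h1 _ h3]
    · rw [← h1 v hv, mulVec_mulVec, mulVec_mulVec, Matrix.mul_assoc, b.act, ← Matrix.mul_assoc,
        b.orth _ _ (Ne.symm h), Matrix.zero_mul, zero_mulVec]
      exact U.zero_mem
  have hE : ∀ u, ∀ v ∈ V, b.e u *ᵥ v ∈ V := fun u v hv γ => by
    rw [mulVec_mulVec v, b.act, ← mulVec_mulVec, mulVec_mulVec _ (b.e i)]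
    by_cases h : i = b.π γ u
    · rw [← h, b.idem]
      exact hv γ
    · rw [b.orth _ _ h, zero_mulVec]
      exact U.zero_mem
  obtain ⟨Q₀, hq1, hq2⟩ := mono_proj V
  obtain ⟨Q, hQ⟩ : ∃ Q : Mt m, Q = ∑ j, b.e j * Q₀ * b.e j := ⟨_, rfl⟩
  have hQ1 : ∀ v, Q *ᵥ v ∈ V := fun v => by
    rw [hQ, sum_mulVec]
    refine V.sum_mem fun j _ => ?_
    rw [← mulVec_mulVec, ← mulVec_mulVec]
    exact hE j _ (hq1 _)
  have hQ2 : ∀ v ∈ V, Q *ᵥ v = v := fun v hv => by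
    conv_rhs => rw [← one_mulVec v, ← b.sum]
    rw [hQ, sum_mulVec, sum_mulVec]
    refine Finset.sum_congr rfl fun j _ => ?_
    rw [← mulVec_mulVec, ← mulVec_mulVec, hq2 _ (hE j v hv), mulVec_mulVec, b.idem]
  refine ⟨Q, ext_iff_mulVec.2 fun v => ?_, fun j => ?_, fun x => ext_iff_mulVec.2 fun v => ?_,
    fun j hj h0 => ?_, fun j hj h0 => ?_⟩
  · rw [← mulVec_mulVec, hQ2 _ (hQ1 v)]
  · rw [hQ, Finset.sum_mul, Finset.mul_sum, Finset.sum_eq_single j, Finset.sum_eq_single j]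
    · rw [Matrix.mul_assoc, b.idem, ← Matrix.mul_assoc, ← Matrix.mul_assoc, b.idem]
    · intro l _ hl
      rw [← Matrix.mul_assoc, ← Matrix.mul_assoc, b.orth j l hl.symm, Matrix.zero_mul,
        Matrix.zero_mul]
    · exact fun h => absurd (Finset.mem_univ j) h
    · intro l _ hl
      rw [Matrix.mul_assoc, b.orth l j hl, Matrix.mul_zero]
    · exact fun h => absurd (Finset.mem_univ j) h
  · rw [← mulVec_mulVec, ← mulVec_mulVec, ← mulVec_mulVec, hQ2 _ (hV x _ (hQ1 v))]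
  · obtain ⟨u, hu, hu0⟩ := (Submodule.ne_bot_iff U).1 hU
    obtain ⟨γ, -, hγ⟩ := ht i hi j hj
    have hγ' : b.π γ i = j := hγ
    have e1 : b.e j *ᵥ σ γ *ᵥ u = σ γ *ᵥ u := by
      rw [mulVec_mulVec, ← hγ', ← b.act, ← mulVec_mulVec, h1 u hu]
    have e2 : σ γ *ᵥ u = 0 := by
      rw [← hQ2 _ (hV γ u (hle hu)), ← e1, mulVec_mulVec, h0, zero_mulVec]
    refine hu0 ?_
    rw [← one_mulVec u, ← rep_inv_mul σ γ, ← mulVec_mulVec, e2, mulVec_zero]
  · obtain ⟨γ, -, hγ⟩ := ht j hj i hi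
    have hγ' : b.π γ j = i := hγ
    rw [Matrix.sub_mul, Matrix.one_mul, sub_eq_zero] at h0
    have e1 : b.e j *ᵥ σ γ⁻¹ *ᵥ w ∈ V := by
      rw [h0, ← mulVec_mulVec]
      exact hQ1 _
    have e2 := e1 γ
    rw [mulVec_mulVec _ (σ γ), b.act, hγ', mulVec_mulVec, mulVec_mulVec, Matrix.mul_assoc,
      Matrix.mul_assoc, rep_mul_inv, Matrix.mul_one, b.idem] at e2
    exact hw e2

/-- `loc_trace` for `Q` and `1 - Q`. -/
theorem rank_idem {Q : Mt m} (h : Q * Q = Q) : Q.rank + (1 - Q).rank = m := by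
  have h' : (1 - Q) * (1 - Q) = 1 - Q := by
    rw [Matrix.sub_mul, Matrix.one_mul, Matrix.mul_sub, Matrix.mul_one, h, sub_self, sub_zero]
  have h1 := loc_trace h
  have h2 := loc_trace h'
  rw [trace_sub, trace_one, Fintype.card_fin, h1, sub_eq_iff_eq_add'] at h2
  exact_mod_cast h2.symm

end Pool.Agent.GR.GC
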