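import Pool.Agent.Lib.MP_aa40d3_nt.MG.Defs
import Pool.Agent.Lib.MP_aa40d3_nt.MR.Jordan

/-! Elements of a finite group close to the identity commute. -/

open Matrix

namespace Pool.Agent.GR.GC

/-- Fix `a` and take a counterexample `b` with `‖u b - 1‖` minimal. For `c = a * b * a⁻¹ * b⁻¹`,
`‖u c - 1‖ ≤ ‖u a * u b - u b * u a‖ ≤ 2 * ‖u a - 1‖ * ‖u b - 1‖ < ‖u b - 1‖`, so `u c` commutes
with `u a`, and `u (a ^ k * b * (a ^ k)⁻¹) = u c ^ k * u b`. Let `n = Nat.card H` and
`P = n⁻¹ • ∑ k ∈ range n, u c ^ k`; then `u c * P = P`, `P * P = P`, and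
`(1 - P) * u b = (u b - 1) - n⁻¹ • ∑ k, u (a ^ k) * (u b - 1) * u (a ^ k)⁻¹` has norm less than
one. So the idempotent `1 - P` has norm less than one, it is zero, and `u c = 1`. -/
theorem near_comm {A : Type} [NormedRing A] [NormedAlgebra ℂ A] {H : Type} [Group H] [Finite H]
    (u : H →* A) (hu : ∀ h, ‖u h‖ ≤ 1) {a b : H} (ha : ‖u a - 1‖ < 1 / 2)
    (hb : ‖u b - 1‖ < 1 / 2) : u a * u b = u b * u a := by
  by_contra hcon
  obtain ⟨b, ⟨hb, hne⟩, hmin⟩ := Set.exists_min_image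
    {b : H | ‖u b - 1‖ < 1 / 2 ∧ u a * u b ≠ u b * u a} (fun b => ‖u b - 1‖) (Set.toFinite _)
    ⟨b, hb, hcon⟩
  have hinv : ∀ x : H, u x * u x⁻¹ = 1 := fun x => by rw [← map_mul, mul_inv_cancel, map_one]
  have hr : ∀ (y : A) (x : H), ‖y * u x‖ ≤ ‖y‖ := fun y x =>
    (norm_mul_le _ _).trans (mul_le_of_le_one_right (norm_nonneg _) (hu x))
  have hl : ∀ (y : A) (x : H), ‖u x * y‖ ≤ ‖y‖ := fun y x =>
    (norm_mul_le _ _).trans (mul_le_of_le_one_left (norm_nonneg _) (hu x))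
  have h0 : 0 < ‖u b - 1‖ := by
    refine norm_pos_iff.2 fun h => hne ?_
    rw [sub_eq_zero.1 h, mul_one, one_mul]
  set c := a * b * a⁻¹ * b⁻¹ with hc
  have hab : u a * u b = u c * u b * u a := by
    rw [← map_mul, ← map_mul, ← map_mul, hc]
    congr 1
    group
  have h1 : u c - 1 = ((u a - 1) * (u b - 1) - (u b - 1) * (u a - 1)) * u (b * a)⁻¹ := by
    rw [show (u a - 1) * (u b - 1) - (u b - 1) * (u a - 1) = u a * u b - u b * u a by noncomm_ring,
      sub_mul, ← map_mul u b a, hinv, ← map_mul, ← map_mul, hc]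
    congr 2
    group
  have h2 : ‖u c - 1‖ < ‖u b - 1‖ := by
    rw [h1]
    refine ((hr _ _).trans (norm_sub_le _ _)).trans_lt ?_
    have h3 := norm_mul_le (u a - 1) (u b - 1)
    have h4 := norm_mul_le (u b - 1) (u a - 1)
    nlinarith
  have h3 : u a * u c = u c * u a := by
    by_contra h
    exact absurd h2 (not_lt.2 (hmin c ⟨h2.trans hb, h⟩))
  have h4 : ∀ k : ℕ, u (a ^ k) * u b = u c ^ k * u b * u (a ^ k) := fun k => by
    induction k with
    | zero => simp
    | succ k ih =>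
      rw [pow_succ' a, map_mul, mul_assoc, ih, ← mul_assoc, ← mul_assoc,
        (Commute.pow_right h3 k).eq, mul_assoc _ (u a), hab, pow_succ]
      simp only [mul_assoc]
  have hn : (Nat.card H : ℂ) ≠ 0 := Nat.cast_ne_zero.2 Nat.card_pos.ne'
  have hn' : (0 : ℝ) < Nat.card H := Nat.cast_pos.2 Nat.card_pos
  set P : A := (Nat.card H : ℂ)⁻¹ • ∑ k ∈ Finset.range (Nat.card H), u c ^ k with hP
  have h5 : u c * P = P := by
    have h := mul_geom_sum (u c) (Nat.card H)
    rw [← map_pow, pow_card_eq_one', map_one, sub_self, sub_mul, one_mul, sub_eq_zero] at h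
    rw [hP, mul_smul_comm, h]
  have h6 : ∀ k : ℕ, u c ^ k * P = P := fun k => by
    induction k with
    | zero => simp
    | succ k ih => rw [pow_succ, mul_assoc, h5, ih]
  have h7 : P * P = P := by
    conv_lhs => lhs; rw [hP]
    rw [smul_mul_assoc, Finset.sum_mul]
    simp only [h6, Finset.sum_const, Finset.card_range]
    rw [← Nat.cast_smul_eq_nsmul ℂ, smul_smul, inv_mul_cancel₀ hn, one_smul]
  have h8 : (1 - P) * u b = (u b - 1) - (Nat.card H : ℂ)⁻¹ •
      ∑ k ∈ Finset.range (Nat.card H), u (a ^ k) * (u b - 1) * u (a ^ k)⁻¹ := by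
    have h : ∀ k : ℕ, u (a ^ k) * (u b - 1) * u (a ^ k)⁻¹ = u c ^ k * u b - 1 := fun k => by
      rw [mul_sub, sub_mul, mul_one, hinv, h4, mul_assoc, hinv, mul_one]
    simp only [h, Finset.sum_sub_distrib, Finset.sum_const, Finset.card_range]
    rw [smul_sub, ← Nat.cast_smul_eq_nsmul ℂ, smul_smul, inv_mul_cancel₀ hn, one_smul, sub_mul,
      one_mul, hP, smul_mul_assoc, Finset.sum_mul]
    abel
  have h9 : ‖(1 - P) * u b‖ < 1 := by
    rw [h8]
    refine (norm_sub_le _ _).trans_lt ?_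
    have h : ‖∑ k ∈ Finset.range (Nat.card H), u (a ^ k) * (u b - 1) * u (a ^ k)⁻¹‖ ≤
        Nat.card H * ‖u b - 1‖ := by
      refine (norm_sum_le _ _).trans ?_
      refine (Finset.sum_le_sum fun k _ => (hr _ _).trans (hl _ _)).trans_eq ?_
      rw [Finset.sum_const, Finset.card_range, nsmul_eq_mul]
    rw [norm_smul, norm_inv, Complex.norm_natCast]
    have h' := mul_le_mul_of_nonneg_left h (inv_nonneg.2 hn'.le)
    rw [← mul_assoc, inv_mul_cancel₀ hn'.ne', one_mul] at h'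
    linarith
  have h10 : ‖1 - P‖ < 1 := by
    have h := hr ((1 - P) * u b) b⁻¹
    rw [mul_assoc, hinv, mul_one] at h
    exact h.trans_lt h9
  have h11 : (1 - P) * (1 - P) = 1 - P := by
    rw [mul_sub, mul_one, sub_mul, one_mul, h7, sub_self, sub_zero]
  have h12 : 1 - P = 0 := by
    have h := norm_mul_le (1 - P) (1 - P)
    rw [h11] at h
    refine norm_le_zero_iff.1 ?_
    nlinarith [norm_nonneg (1 - P)]
  rw [← sub_eq_zero.1 h12, mul_one] at h5
  rw [h5, one_mul] at hab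
  exact hne hab

open scoped Matrix.Norms.L2Operator in
theorem near_cover (m : ℕ) : ∃ t : Set (Mt m), t.Finite ∧ ∀ (H : Type) [Group H] [Finite H]
    (u : H →* Mt m), (∀ x, (u x)ᴴ * u x = 1) → ∃ c : H → Mt m, (∀ x, c x ∈ t) ∧
      ∀ x y z w, c x = c y → c z = c w →
        u (x⁻¹ * y) * u (z⁻¹ * w) = u (z⁻¹ * w) * u (x⁻¹ * y) := by
  have : ProperSpace (Mt m) := FiniteDimensional.proper ℂ (Mt m)
  obtain ⟨t, -, ht, hc⟩ := finite_cover_balls_of_compact
    (isCompact_closedBall (0 : Mt m) 1) (e := 1 / 4) (by positivity)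
  refine ⟨t, ht, fun H _ _ u hu => ?_⟩
  have h1 : ‖(1 : Mt m)‖ ≤ 1 := by
    have h := CStarRing.norm_star_mul_self (x := (1 : Mt m))
    rw [star_one, mul_one] at h
    nlinarith [norm_nonneg (1 : Mt m)]
  have h2 : ∀ x, ‖u x‖ ≤ 1 := fun x => by
    have h := CStarRing.norm_star_mul_self (x := u x)
    rw [star_eq_conjTranspose, hu] at h
    nlinarith [norm_nonneg (u x)]
  have h3 : ∀ x, ∃ c ∈ t, ‖u x - c‖ < 1 / 4 := fun x => by
    obtain ⟨c, c1, c2⟩ := Set.mem_iUnion₂.1 (hc (mem_closedBall_zero_iff.2 (h2 x)))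
    exact ⟨c, c1, mem_ball_iff_norm.1 c2⟩
  choose c c1 c2 using h3
  have h4 : ∀ x y, c x = c y → ‖u (x⁻¹ * y) - 1‖ < 1 / 2 := fun x y h => by
    rw [show u (x⁻¹ * y) - 1 = u x⁻¹ * (u y - u x) by
      rw [mul_sub, ← map_mul, ← map_mul, inv_mul_cancel, map_one]]
    refine ((norm_mul_le _ _).trans (mul_le_of_le_one_left (norm_nonneg _) (h2 _))).trans_lt ?_
    have h5 := norm_sub_le_norm_sub_add_norm_sub (u y) (c y) (u x)
    have h6 := c2 x
    rw [h, norm_sub_rev] at h6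
    linarith [c2 y]
  exact ⟨c, c1, fun x y z w h h' => near_comm u h2 (h4 x y h) (h4 z w h')⟩

/-- `exists_unitarise` for the range of `ρ.toHomUnits`; with the norm of
`open scoped Matrix.Norms.L2Operator` unitary matrices have norm at most one. Cover the compact
closed unit ball by finitely many balls of radius `1 / 4` (`finite_cover_balls_of_compact`); the
colour of `x` is a ball that contains the unitary matrix of `x`. Then `near_comm`. -/
theorem jordan_col (m : ℕ) : ∃ J : ℕ, ∀ (H : Type) [Group H] [Finite H] (ρ : H →* Mt m),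
    Function.Injective ρ → ∃ f : H → Fin J, ∀ x y z w, f x = f y → f z = f w →
      Commute (x⁻¹ * y) (z⁻¹ * w) := by
  obtain ⟨t, ht, hc⟩ := near_cover m
  refine ⟨ht.toFinset.card, fun H _ _ ρ hρ => ?_⟩
  have : Finite ρ.toHomUnits.range := (Set.finite_range _).to_subtype
  obtain ⟨g, hg⟩ := exists_unitarise ρ.toHomUnits.range
  obtain ⟨u, hu'⟩ : ∃ u : H →* Mt m, ∀ x, u x = (g * ρ.toHomUnits x * g⁻¹).val :=
    ⟨(Units.coeHom _).comp ((MulAut.conj g).toMonoidHom.comp ρ.toHomUnits), fun _ => rfl⟩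
  have hu : ∀ x, (u x)ᴴ * u x = 1 := fun x => by
    rw [hu']
    exact hg _ ⟨x, rfl⟩
  have hi : Function.Injective u := fun x y h => by
    rw [hu', hu'] at h
    have h1 := congrArg Units.val (mul_left_cancel (mul_right_cancel (Units.ext h)))
    exact hρ h1
  obtain ⟨c, c1, c2⟩ := hc H u hu
  refine ⟨fun x => ht.toFinset.equivFin ⟨c x, ht.mem_toFinset.2 (c1 x)⟩, fun x y z w h1 h2 => ?_⟩
  refine hi ?_
  rw [map_mul u (x⁻¹ * y), map_mul u (z⁻¹ * w)]
  exact c2 x y z w (congrArg Subtype.val (ht.toFinset.equivFin.injective h1))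
    (congrArg Subtype.val (ht.toFinset.equivFin.injective h2))

end Pool.Agent.GR.GC
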