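import Pool.Agent.Lib.MP_aa40d3_nt.GD.Dih
import Pool.Agent.Lib.MP_aa40d3_nt.GD.Near

/-! Three members with the same image. -/

open Matrix

namespace Pool.Agent.GR.GC

/-- Let `H = G ⧸ ρ.ker` with the injective map `QuotientGroup.lift`, `J, f` from `jordan_col`, `K`
from `dihedral m 3`, `k = J * K + 1` or so. Some colour class `T` of `l.filter P` has `K` members
(`dbl_count`, or count directly); `hur_sel`. In `H` let `B` be the closure of the products of two
members of the image of `T`; it is commutative. `dihedral`, `Hur.lift`, `Hur.all`. -/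
theorem triple (m : ℕ) : ∃ k : ℕ, ∀ (G : Type) [Group G] (ρ : G →* Mt m) (P : G → Bool),
    ρ.ker.FiniteIndex → (∀ γ x, P x → P (γ * x * γ⁻¹)) → (∀ x, P x → x * x = 1) →
    ∀ l : List G, k ≤ l.countP P → ∃ x y z R, Hur l (x :: y :: z :: R) ∧ P x ∧ P y ∧ P z ∧
      ρ x = ρ y ∧ ρ y = ρ z := by
  obtain ⟨J, hJ⟩ := jordan_col m
  obtain ⟨K, hK⟩ := dihedral m 3
  refine ⟨J * K + 1, fun G _ ρ P hfi hc h2 l hl => ?_⟩
  let φ : G →* G ⧸ ρ.ker := QuotientGroup.mk' ρ.ker
  let ρ' : G ⧸ ρ.ker →* Mt m := QuotientGroup.lift ρ.ker ρ le_rfl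
  have hρ : ∀ x, ρ' (φ x) = ρ x := fun _ => rfl
  have hi : Function.Injective ρ' := by
    rw [injective_iff_map_eq_one]
    intro x hx
    obtain ⟨x, rfl⟩ := QuotientGroup.mk'_surjective ρ.ker x
    exact (QuotientGroup.eq_one_iff x).2 hx
  obtain ⟨f, hf⟩ := hJ _ ρ' hi
  obtain ⟨c, hcl⟩ : ∃ c, K ≤ ((l.filter P).filter fun x => f (φ x) = c).length := by
    by_contra h
    have h1 := dbl_count (fun x => f (φ x)) K (l.filter P)
      (fun c => (not_le.1 fun h' => h ⟨c, h'⟩).le) (List.finRange J)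
    simp only [List.mem_finRange, decide_true, List.filter_true, List.length_finRange] at h1
    rw [List.countP_eq_length_filter] at hl
    omega
  obtain ⟨T, hT⟩ : ∃ T, T = (l.filter P).filter fun x => f (φ x) = c := ⟨_, rfl⟩
  rw [← hT] at hcl
  have hT1 : ∀ x ∈ T, P x ∧ f (φ x) = c := fun x hx => by
    rw [hT, List.mem_filter, List.mem_filter] at hx
    exact ⟨hx.1.2, of_decide_eq_true hx.2⟩
  obtain ⟨R, hR⟩ := hur_sel (T := T) (l := l)
    (hT ▸ List.filter_sublist.trans List.filter_sublist)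
  have hT2 : ∀ x ∈ T.map φ, x * x = 1 ∧ f x = c := fun x hx => by
    obtain ⟨y, hy, rfl⟩ := List.mem_map.1 hx
    exact ⟨by rw [← map_mul, h2 y (hT1 y hy).1, map_one], (hT1 y hy).2⟩
  let S : Set (G ⧸ ρ.ker) := {w | ∃ x ∈ T.map φ, ∃ y ∈ T.map φ, w = x * y}
  have hS : ∀ u ∈ S, ∀ v ∈ S, u * v = v * u := by
    rintro _ ⟨x, hx, y, hy, rfl⟩ _ ⟨z, hz, w, hw, rfl⟩
    have h3 := hf x y z w ((hT2 x hx).2.trans (hT2 y hy).2.symm)
      ((hT2 z hz).2.trans (hT2 w hw).2.symm)
    rwa [inv_eq_of_mul_eq_one_right (hT2 x hx).1, inv_eq_of_mul_eq_one_right (hT2 z hz).1] at h3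
  obtain ⟨x, R', h3⟩ := hK _ ρ' hi (Subgroup.closure S) (T.map φ)
    (fun u hu v hv => Set.centralizer_centralizer_comm_of_comm hS _
      (Subgroup.closure_le_centralizer_centralizer S hu) _
      (Subgroup.closure_le_centralizer_centralizer S hv))
    (by rwa [List.length_map]) (fun x hx => (hT2 x hx).1)
    fun x hx y hy => Subgroup.subset_closure ⟨x, hx, y, hy, rfl⟩
  obtain ⟨l', h4, h5⟩ := Hur.lift φ h3
  change l'.map φ = x :: x :: x :: R' at h5
  obtain ⟨a, l₁, rfl, ha, h5⟩ := List.map_eq_cons_iff.1 h5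
  obtain ⟨b, l₂, rfl, hb, h5⟩ := List.map_eq_cons_iff.1 h5
  obtain ⟨d, l₃, rfl, hd, -⟩ := List.map_eq_cons_iff.1 h5
  have h6 := h4.all (P := fun x => P x) hc fun x hx => (hT1 x hx).1
  refine ⟨a, b, d, l₃ ++ R, hR.trans (h4.app_right R), h6 a (by simp), h6 b (by simp),
    h6 d (by simp), ?_, ?_⟩
  · rw [← hρ, ← hρ, ha, hb]
  · rw [← hρ, ← hρ, hb, hd]

/-- `x * y` and `y * z` lie in the kernel and have finite order (`FinL.adj`), so `x = y = z`.
For `w` in the kernel `circle (x :: R)` and `FinL.adj` show `w⁻¹ * x * w * x = 1`. -/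
theorem central (m : ℕ) : ∃ k : ℕ, ∀ (G : Type) [Group G] (ρ : G →* Mt m) (P : G → Bool),
    ρ.ker.FiniteIndex → (∀ γ x, P x → P (γ * x * γ⁻¹)) → (∀ x, P x → x * x = 1) →
    (∀ w ∈ ρ.ker, IsOfFinOrder w → w = 1) → ∀ l : List G, gen l = ⊤ → FinL l → k ≤ l.countP P →
    ∃ x, P x ∧ ∀ w ∈ ρ.ker, x * w = w * x := by
  obtain ⟨k, hk⟩ := triple m
  refine ⟨k, fun G _ ρ P hfi hc h2 ht l hg hl hn => ?_⟩
  obtain ⟨x, y, z, R, h1, hx, hy, -, e1, e2⟩ := hk G ρ P hfi hc h2 l hn
  have hf := hl.hur h1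
  have key : ∀ u v : G, P u → ρ u = ρ v → IsOfFinOrder (u * v) → v = u := fun u v hu e h => by
    have h3 := ht (u * v) (by rw [MonoidHom.mem_ker, map_mul, ← e, ← map_mul, h2 u hu, map_one]) h
    exact mul_left_cancel (h3.trans (h2 u hu).symm)
  obtain rfl := key x y hx e1 (FinL.adj (A := []) hf)
  obtain rfl := key y z hy e2 (FinL.adj (A := [y]) hf)
  have h3 : gen (z :: R) = ⊤ := by
    rw [eq_top_iff, ← hg, ← h1.gen, gen_le]
    intro u hu
    exact mem_gen (by simpa using hu)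
  refine ⟨z, hx, fun w hw => ?_⟩
  have h4 := hf.hur (circle (z :: R) (y := w) (h3 ▸ Subgroup.mem_top w) (h2 z hx))
  have h5 : z = w⁻¹ * z * w := by
    refine key _ _ (by simpa using hc w⁻¹ z hx) ?_ (FinL.adj (A := [w⁻¹ * z * w]) h4)
    rw [map_mul, map_mul, MonoidHom.mem_ker.1 hw, MonoidHom.mem_ker.1 (inv_mem hw), one_mul,
      mul_one]
  conv_rhs => rw [h5]
  group

/-- `MonoidHom.transferCenterPow` maps the generators to elements of finite order of a commutative
group. -/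
theorem torsion_of_center {G : Type} [Group G] [(Subgroup.center G).FiniteIndex] {l : List G}
    (hg : gen l = ⊤) (hl : ∀ x ∈ l, IsOfFinOrder x) (x : G) : IsOfFinOrder x := by
  have hc : ∀ y : G, y ^ (Subgroup.center G).index ∈ Subgroup.center G := fun y =>
    (MonoidHom.transferCenterPow G y).2
  have hm : ∀ y z : G, (y * z) ^ (Subgroup.center G).index =
      y ^ (Subgroup.center G).index * z ^ (Subgroup.center G).index := fun y z =>
    congrArg Subtype.val (map_mul (MonoidHom.transferCenterPow G) y z)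
  have h3 : IsOfFinOrder (x ^ (Subgroup.center G).index) := by
    have hx : x ∈ gen l := hg ▸ Subgroup.mem_top x
    induction hx using Subgroup.closure_induction with
    | mem y hy => exact (hl y hy).pow
    | one => rw [one_pow]; exact IsOfFinOrder.one
    | mul y z _ _ hy hz =>
      rw [hm]
      exact Commute.isOfFinOrder_mul (Subgroup.mem_center_iff.1 (hc z) _) hy hz
    | inv y _ hy => rw [inv_pow]; exact hy.inv
  exact h3.of_pow Subgroup.FiniteIndex.index_ne_zero

end Pool.Agent.GR.GC
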