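import Pool.Agent.Lib.MP_aa40d3_nt.GC.Hur

/-! Lifting of moves, selection and circling. -/

namespace Pool.Agent.GR.GC

variable {G D : Type} [Group G] [Group D]

omit [Group G] [Group D] in
theorem lift_split {V : G → D → Prop} {A B : List D} {l : List G}
    (h : List.Forall₂ V l (A ++ B)) :
    ∃ l₁ l₂, l = l₁ ++ l₂ ∧ List.Forall₂ V l₁ A ∧ List.Forall₂ V l₂ B := by
  induction A generalizing l with
  | nil => exact ⟨[], l, rfl, List.Forall₂.nil, h⟩
  | cons a A ih =>
    obtain ⟨c, l', hc, hl', rfl⟩ := List.forall₂_cons_right_iff.1 h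
    obtain ⟨l₁, l₂, rfl, h₁, h₂⟩ := ih hl'
    exact ⟨c :: l₁, l₂, rfl, List.Forall₂.cons hc h₁, h₂⟩

omit [Group G] [Group D] in
theorem lift_split₂ {V : G → D → Prop} {A B : List D} {u w : D} {l : List G}
    (h : List.Forall₂ V l (A ++ u :: w :: B)) :
    ∃ l₁ l₂ x y, l = l₁ ++ x :: y :: l₂ ∧ List.Forall₂ V l₁ A ∧ V x u ∧ V y w ∧
      List.Forall₂ V l₂ B := by
  obtain ⟨l₁, l₂, rfl, h₁, h₂⟩ := lift_split h
  obtain ⟨x, l₃, hx, h₃, rfl⟩ := List.forall₂_cons_right_iff.1 h₂
  obtain ⟨y, l₄, hy, h₄, rfl⟩ := List.forall₂_cons_right_iff.1 h₃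
  exact ⟨l₁, l₄, x, y, rfl, h₁, hx, hy, h₄⟩

theorem lift_passR {x : G} (hx : x * x = 1) (A B : List G) :
    Hur (x :: x :: (A ++ B)) (A ++ x :: x :: B) := by
  have h := (hur_blockR [x, x] A).app_right B
  simpa [hx] using h

theorem lift_passL {x : G} (hx : x * x = 1) (A B : List G) :
    Hur (A ++ x :: x :: B) (x :: x :: (A ++ B)) := by
  have h := (hur_blockL A [x, x]).app_right B
  simpa [hx] using h

theorem lift_sq {x : G} (hx : x * x = 1) (y : G) : (y⁻¹ * x * y) * (y⁻¹ * x * y) = 1 := by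
  calc (y⁻¹ * x * y) * (y⁻¹ * x * y) = y⁻¹ * (x * x) * y := by group
    _ = 1 := by rw [hx]; group

/-- Induction on `hp`; split the list with `List.forall₂_append`-type lemmas (for instance
`List.forall₂_take_append`, `List.forall₂_drop_append`, `List.forall₂_cons_right_iff`,
`List.rel_append`). -/
theorem Hur.lift_rel {V : G → D → Prop}
    (hV : ∀ x u y w, V x u → V y w →
      V (y⁻¹ * x * y) (w⁻¹ * u * w) ∧ V (x * y * x⁻¹) (u * w * u⁻¹))
    {l : List G} {p p' : List D} (h : List.Forall₂ V l p) (hp : Hur p p') :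
    ∃ l', Hur l l' ∧ List.Forall₂ V l' p' := by
  induction hp with
  | refl => exact ⟨l, Hur.refl _, h⟩
  | left _ ih =>
    obtain ⟨l', hl, hf⟩ := ih
    obtain ⟨l₁, l₂, x, y, rfl, h₁, hx, hy, h₂⟩ := lift_split₂ hf
    exact ⟨_, Hur.left hl, List.rel_append h₁
      (List.Forall₂.cons hy (List.Forall₂.cons (hV _ _ _ _ hx hy).1 h₂))⟩
  | right _ ih =>
    obtain ⟨l', hl, hf⟩ := ih
    obtain ⟨l₁, l₂, x, y, rfl, h₁, hx, hy, h₂⟩ := lift_split₂ hf
    exact ⟨_, Hur.right hl, List.rel_append h₁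
      (List.Forall₂.cons (hV _ _ _ _ hx hy).2 (List.Forall₂.cons hx h₂))⟩

/-- `Hur.lift_rel` with `V x u := φ x = u`. -/
theorem Hur.lift (φ : G →* D) {l : List G} {p : List D} (hp : Hur (l.map φ) p) :
    ∃ l', Hur l l' ∧ l'.map φ = p := by
  have h0 : List.Forall₂ (fun x u => φ x = u) l (l.map φ) := by
    rw [List.forall₂_map_right_iff]
    exact List.forall₂_same.2 fun _ _ => rfl
  obtain ⟨l', hl, hf⟩ := Hur.lift_rel (V := fun x u => φ x = u)
    (fun x u y w hx hy => by
      subst hx hy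
      simp) h0 hp
  refine ⟨l', hl, ?_⟩
  rw [← List.forall₂_eq_eq_eq, List.forall₂_map_left_iff]
  exact hf

theorem FinL.map (φ : G →* D) {l : List G} (h : FinL l) : FinL (l.map φ) := by
  intro A B hAB
  obtain ⟨l', hl, he⟩ := Hur.lift φ hAB
  obtain ⟨A', B', rfl, rfl, rfl⟩ := List.map_eq_append_iff.1 he
  rw [← map_list_prod]
  exact φ.isOfFinOrder (h A' B' hl)

/-- Induction on `h`; `hur_blockR [a] T` read backwards is not needed: `a :: T ++ R` is moved by
the right moves that keep the members of `T`, see `hur_blockL [a] T`. -/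
theorem hur_sel {T l : List G} (h : T.Sublist l) : ∃ R, Hur l (T ++ R) := by
  induction h with
  | slnil => exact ⟨[], Hur.refl _⟩
  | @cons T l a _ ih =>
    obtain ⟨R, hR⟩ := ih
    have h1 := hR.app_left [a]
    have h2 := (hur_blockL [a] T).app_right R
    refine ⟨(T.prod⁻¹ * a * T.prod) :: R, h1.trans ?_⟩
    simpa using h2
  | @cons_cons T l a _ ih =>
    obtain ⟨R, hR⟩ := ih
    exact ⟨R, hR.app_left [a]⟩

/-- The pair `[x, x]` has product one, so it passes other members without any change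
(`hur_blockL`, `hur_blockR`). For `z ∈ L` move it next to `z`, pass `z` by `hur_blockL [x, x] [z]`
or `hur_blockR [z] [x, x]`, and move it back. Prove the claim for all `x` with `x * x = 1` at once,
by induction on `y` (`Subgroup.closure_induction''` or `closure_induction_left`). -/
theorem circle (L : List G) {y : G} (hy : y ∈ gen L) {x : G} (hx : x * x = 1) :
    Hur (x :: x :: L) ((y⁻¹ * x * y) :: (y⁻¹ * x * y) :: L) := by
  induction hy using Subgroup.closure_induction'' generalizing x with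
  | mem z hz =>
    obtain ⟨A, B, rfl⟩ := List.append_of_mem hz
    have h1 := lift_passR hx A (z :: B)
    have h2 : Hur (A ++ x :: x :: z :: B) (A ++ z :: (z⁻¹ * x * z) :: (z⁻¹ * x * z) :: B) := by
      simpa using (hur_blockL [x, x] [z]).ctx A B
    have h3 := lift_passL (lift_sq hx z) (A ++ [z]) B
    exact (h1.trans h2).trans (by simpa using h3)
  | inv_mem z hz =>
    obtain ⟨A, B, rfl⟩ := List.append_of_mem hz
    have h1 : Hur (x :: x :: (A ++ z :: B)) (A ++ z :: x :: x :: B) := by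
      simpa using lift_passR hx (A ++ [z]) B
    have h2 : Hur (A ++ z :: x :: x :: B)
        (A ++ (z⁻¹⁻¹ * x * z⁻¹) :: (z⁻¹⁻¹ * x * z⁻¹) :: z :: B) := by
      simpa using (hur_blockR [z] [x, x]).ctx A B
    exact (h1.trans h2).trans (lift_passL (lift_sq hx z⁻¹) A (z :: B))
  | one => simpa using Hur.refl (x :: x :: L)
  | mul a b _ _ iha ihb =>
    have e : (a * b)⁻¹ * x * (a * b) = b⁻¹ * (a⁻¹ * x * a) * b := by group
    rw [e]
    exact (iha hx).trans (ihb (lift_sq hx a))

/-- The product of two adjacent members has finite order: `hur_blockL A [x, y]`. -/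
theorem FinL.adj {A B : List G} {x y : G} (h : FinL (A ++ x :: y :: B)) : IsOfFinOrder (x * y) := by
  have h1 := (hur_blockL A [x, y]).app_right B
  have h2 := h [x, y] ((A.map fun t => [x, y].prod⁻¹ * t * [x, y].prod) ++ B) (by simpa using h1)
  simpa using h2

end Pool.Agent.GR.GC
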