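import Pool.Agent.Lib.MP_aa40d3_nt.GD.DihB

/-! Involutions with commuting products. -/

open Matrix

namespace Pool.Agent.GR.GC

/-- The vectors fixed by `B`. -/
def dihFix {H : Type} [Group H] {m : ℕ} (ρ : H →* Mt m) (B : Subgroup H) :
    Submodule ℂ (Fin m → ℂ) where
  carrier := {v | ∀ x ∈ B, ρ x *ᵥ v = v}
  add_mem' := fun hu hv x hx => by rw [mulVec_add, hu x hx, hv x hx]
  zero_mem' := fun x _ => mulVec_zero _
  smul_mem' := fun c v hv x hx => by rw [mulVec_smul, hv x hx]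

/-- The members of `B` that fix `v`. -/
def dihStab {H : Type} [Group H] {m : ℕ} (ρ : H →* Mt m) (B : Subgroup H) (v : Fin m → ℂ) :
    Subgroup H where
  carrier := {x | x ∈ B ∧ ρ x *ᵥ v = v}
  one_mem' := ⟨B.one_mem, by rw [map_one, one_mulVec]⟩
  mul_mem' := fun {x y} hx hy => ⟨B.mul_mem hx.1 hy.1, by
    rw [map_mul, ← mulVec_mulVec, hy.2, hx.2]⟩
  inv_mem' := fun {x} hx => ⟨B.inv_mem hx.1, by
    conv_lhs => rw [← hx.2, mulVec_mulVec, ← map_mul, inv_mul_cancel, map_one, one_mulVec]⟩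

theorem dih_triv {H : Type} [Group H] {B : Subgroup H} {T : List H} {q : ℕ}
    (hB : ∀ x ∈ B, x = 1) (hq : q ≤ T.length) (h2 : ∀ x ∈ T, x * x = 1)
    (hT : ∀ x ∈ T, ∀ y ∈ T, x * y ∈ B) : ∃ x R, Hur T (List.replicate q x ++ R) := by
  have he : ∀ x ∈ T, ∀ y ∈ T, y = x := fun x hx y hy =>
    mul_left_cancel ((hB _ (hT x hx y hy)).trans (h2 x hx).symm)
  obtain ⟨x, hx⟩ : ∃ x, ∀ y ∈ T, y = x := by
    cases T with
    | nil => exact ⟨1, fun y hy => absurd hy List.not_mem_nil⟩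
    | cons x T => exact ⟨x, he x List.mem_cons_self⟩
  have h : T.take q = List.replicate q x :=
    List.eq_replicate_iff.mpr ⟨by rw [List.length_take, min_eq_left hq],
      fun y hy => hx y (List.mem_of_mem_take hy)⟩
  refine ⟨x, T.drop q, ?_⟩
  rw [← h, List.take_append_drop]
  exact Hur.refl _

theorem dih_aux (m q j : ℕ) : ∃ K : ℕ, ∀ (H : Type) [Group H] [Finite H] (ρ : H →* Mt m),
    Function.Injective ρ → ∀ (B : Subgroup H) (T : List H), (∀ x ∈ B, ∀ y ∈ B, x * y = y * x) →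
    m ≤ j + Module.finrank ℂ (dihFix ρ B) →
    K ≤ T.length → (∀ x ∈ T, x * x = 1) → (∀ x ∈ T, ∀ y ∈ T, x * y ∈ B) →
    ∃ x R, Hur T (List.replicate q x ++ R) := by
  induction j with
  | zero =>
    refine ⟨q, fun H _ _ ρ hi B T _ hm hq h2 hT => dih_triv (fun x hx => ?_) hq h2 hT⟩
    have htop : dihFix ρ B = ⊤ := by
      apply Submodule.eq_top_of_finrank_eq
      have h := (dihFix ρ B).finrank_le
      rw [Module.finrank_fin_fun] at h ⊢
      omega
    apply hi
    rw [map_one]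
    refine Matrix.ext_of_mulVec_single fun i => ?_
    have hv : (Pi.single i 1 : Fin m → ℂ) ∈ dihFix ρ B := htop ▸ Submodule.mem_top
    rw [hv x hx, one_mulVec]
  | succ j ih =>
    obtain ⟨K, hK⟩ := ih
    obtain ⟨K', hK'⟩ := dih_step K
    refine ⟨max q K', fun H _ _ ρ hi B T hB hm hq h2 hT => ?_⟩
    by_cases h1 : ∀ x ∈ B, x = 1
    · exact dih_triv h1 (le_trans (le_max_left _ _) hq) h2 hT
    push Not at h1
    obtain ⟨b, hb, hb1⟩ := h1
    obtain ⟨v, hv, hc⟩ := common_eig ρ hi B hB hb hb1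
    obtain ⟨T', R, hur, hl, h2', hT'⟩ :=
      hK' H m ρ B v T hc (le_trans (le_max_right _ _) hq) h2 hT
    have hlt : dihFix ρ B < dihFix ρ (dihStab ρ B v) := by
      refine lt_of_le_of_ne (fun w hw x hx => hw x hx.1) fun h => hv ?_
      have hv' : v ∈ dihFix ρ (dihStab ρ B v) := fun x hx => hx.2
      rw [← h] at hv'
      exact hv' b hb
    have hr := Submodule.finrank_lt_finrank_of_lt hlt
    obtain ⟨x, R', h⟩ := hK H ρ hi (dihStab ρ B v) T' (fun x hx y hy => hB x hx.1 y hy.1)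
      (by omega) hl.ge h2' hT'
    refine ⟨x, R' ++ R, ?_⟩
    rw [← List.append_assoc]
    exact hur.trans (h.app_right R)

/-- Let `F B` be the space of the vectors fixed by `B`. Induction on `j` for the claim with the
extra hypothesis `m ≤ j + finrank (F B)` (and `q ≤ K`). If `B = ⊥` all members of `T` are equal;
this holds if `F B = ⊤`. Otherwise take `v` from `common_eig`, `T'` from `dih_step` and
`B' = {x ∈ B | ρ x *ᵥ v = v}`; then `F B < F B'`. -/
theorem dihedral (m q : ℕ) : ∃ K : ℕ, ∀ (H : Type) [Group H] [Finite H] (ρ : H →* Mt m),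
    Function.Injective ρ → ∀ (B : Subgroup H) (T : List H), (∀ x ∈ B, ∀ y ∈ B, x * y = y * x) →
    K ≤ T.length → (∀ x ∈ T, x * x = 1) → (∀ x ∈ T, ∀ y ∈ T, x * y ∈ B) →
    ∃ x R, Hur T (List.replicate q x ++ R) := by
  obtain ⟨K, hK⟩ := dih_aux m q m
  exact ⟨K, fun H _ _ ρ hi B T hB => hK H ρ hi B T hB (Nat.le_add_right _ _)⟩

end Pool.Agent.GR.GC
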