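import Pool.Agent.Lib.MP_aa40d3_nt.GD.Euc
import Pool.Agent.Lib.MP_aa40d3_nt.GD.Lift

/-! Involutions with commuting products: one character. -/

open Matrix

namespace Pool.Agent.GR.GC

variable {H : Type} [Group H] [Finite H] {m : ℕ}

theorem diha_eig {V : Type} [AddCommGroup V] [Module ℂ V] [FiniteDimensional ℂ V]
    (S : Set (Module.End ℂ V)) (hS : ∀ f ∈ S, ∀ g ∈ S, f * g = g * f) (n : ℕ) :
    ∀ W : Submodule ℂ V, Module.finrank ℂ W = n → W ≠ ⊥ → (∀ f ∈ S, ∀ v ∈ W, f v ∈ W) →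
      ∃ v ∈ W, v ≠ 0 ∧ ∀ f ∈ S, ∃ c : ℂ, f v = c • v := by
  induction n using Nat.strong_induction_on with
  | _ n ih =>
    intro W hn h0 hW
    by_cases h : ∀ f ∈ S, ∃ c : ℂ, ∀ v ∈ W, f v = c • v
    · obtain ⟨v, hv, hv0⟩ := (Submodule.ne_bot_iff W).1 h0
      refine ⟨v, hv, hv0, fun f hf => ?_⟩
      obtain ⟨c, hc⟩ := h f hf
      exact ⟨c, hc v hv⟩
    · push Not at h
      obtain ⟨f, hf, hc⟩ := h
      have : Nontrivial W := Submodule.nontrivial_iff_ne_bot.2 h0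
      obtain ⟨c, hc'⟩ := Module.End.exists_eigenvalue (f.restrict (hW f hf) : Module.End ℂ W)
      obtain ⟨w, hw⟩ := hc'.exists_hasEigenvector
      have hw1 : f w = c • (w : V) := congrArg Subtype.val hw.apply_eq_smul
      have hw0 : (w : V) ≠ 0 := fun e => hw.2 (Subtype.ext e)
      obtain ⟨u, hu, hu'⟩ := hc c
      have hlt : W ⊓ f.eigenspace c < W := by
        refine lt_of_le_of_ne inf_le_left fun e => hu' ?_
        have : u ∈ W ⊓ f.eigenspace c := by rwa [e]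
        exact Module.End.mem_eigenspace_iff.1 this.2
      obtain ⟨v, hv, hv0, hv'⟩ := ih _ (hn ▸ Submodule.finrank_lt_finrank_of_lt hlt)
        (W ⊓ f.eigenspace c) rfl
        ((Submodule.ne_bot_iff _).2 ⟨w, ⟨w.2, Module.End.mem_eigenspace_iff.2 hw1⟩, hw0⟩)
        (fun g hg v hv => ⟨hW g hg v hv.1, Module.End.mem_eigenspace_iff.2 (by
          have e := congrArg (fun t : Module.End ℂ V => t v) (hS f hf g hg)
          simp only [Module.End.mul_apply] at e
          rw [e, Module.End.mem_eigenspace_iff.1 hv.2, map_smul])⟩)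
      exact ⟨v, hv.1, hv0, hv'⟩

theorem diha_fix (ρ : H →* Mt m) (b : H) (u : Fin m → ℂ)
    (h : ρ b *ᵥ (ρ b *ᵥ u - u) = ρ b *ᵥ u - u) : ρ b *ᵥ u - u = 0 := by
  have key : ∀ k : ℕ, ρ (b ^ k) *ᵥ u = u + (k : ℂ) • (ρ b *ᵥ u - u) := by
    intro k
    induction k with
    | zero => simp
    | succ k ih =>
      rw [pow_succ', map_mul, ← mulVec_mulVec, ih, mulVec_add, mulVec_smul, h]
      push_cast
      rw [add_smul, one_smul]
      abel
  have h1 := key (Nat.card H)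
  rw [pow_card_eq_one', map_one, one_mulVec] at h1
  have h2 : (Nat.card H : ℂ) • (ρ b *ᵥ u - u) = 0 := by
    simpa using h1.symm
  have h3 : (Nat.card H : ℂ) ≠ 0 := by exact_mod_cast (Nat.card_pos (α := H)).ne'
  exact (smul_eq_zero.1 h2).resolve_left h3

/-- The range `W` of `ρ b - 1` is nonzero, invariant under `B`, and `ρ b` fixes no nonzero vector
of `W` (if `w = ρ b u - u` is fixed then `ρ (b ^ k) u = u + k • w`; take `k = Nat.card H`). Take an
invariant nonzero subspace of `W` of least dimension; every `ρ x`, `x ∈ B`, has an eigenvector in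
it, and the eigenspace is invariant. -/
theorem common_eig (ρ : H →* Mt m) (hi : Function.Injective ρ) (B : Subgroup H)
    (hB : ∀ x ∈ B, ∀ y ∈ B, x * y = y * x) {b : H} (hb : b ∈ B) (h1 : b ≠ 1) :
    ∃ v : Fin m → ℂ, ρ b *ᵥ v ≠ v ∧ ∀ x ∈ B, ∃ c : ℂ, ρ x *ᵥ v = c • v := by
  have hne : LinearMap.range (Matrix.toLin' (ρ b - 1)) ≠ ⊥ := by
    intro e
    rw [LinearMap.range_eq_bot, LinearEquiv.map_eq_zero_iff, sub_eq_zero, ← map_one ρ] at e
    exact h1 (hi e)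
  obtain ⟨v, ⟨u, rfl⟩, hv0, hv⟩ := diha_eig ((fun x => Matrix.toLin' (ρ x)) '' (B : Set H))
    (by
      rintro _ ⟨x, hx, rfl⟩ _ ⟨y, hy, rfl⟩
      simp only [Module.End.mul_eq_comp, ← Matrix.toLin'_mul, ← map_mul, hB x hx y hy]) _
    (LinearMap.range (Matrix.toLin' (ρ b - 1))) rfl hne
    (by
      rintro _ ⟨x, hx, rfl⟩ _ ⟨u, rfl⟩
      refine ⟨ρ x *ᵥ u, ?_⟩
      simp only [Matrix.toLin'_apply, mulVec_mulVec, Matrix.sub_mul, Matrix.mul_sub,
        Matrix.one_mul, Matrix.mul_one, ← map_mul, hB x hx b hb])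
  rw [Matrix.toLin'_apply, sub_mulVec, one_mulVec] at hv0 hv
  exact ⟨ρ b *ᵥ u - u, fun e => hv0 (diha_fix ρ b u e), fun x hx => hv _ ⟨x, hx, rfl⟩⟩

end Pool.Agent.GR.GC
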