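import Pool.Agent.Lib.MP_aa40d3_nt.GD.DihA

/-! Involutions with commuting products: one character. -/

open Matrix

namespace Pool.Agent.GR.GC

theorem dihb_mem {α β : Type} {V : α → β → Prop} {l : List α} {p : List β}
    (h : List.Forall₂ V l p) : ∀ x ∈ l, ∃ u ∈ p, V x u := by
  induction h with
  | nil => simp
  | cons h1 _ ih =>
    intro x hx
    rcases List.mem_cons.1 hx with rfl | hx
    · exact ⟨_, List.mem_cons_self, h1⟩
    · obtain ⟨u, hu, h2⟩ := ih x hx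
      exact ⟨u, List.mem_cons_of_mem _ hu, h2⟩

section
variable {H : Type} [Group H] {m : ℕ} {ρ : H →* Mt m} {v : Fin m → ℂ} {ζ : ℂ} {g g' : H} {a b : ℤ}

theorem dihb_mul (hζ : ζ ≠ 0) (h : ρ g *ᵥ v = ζ ^ a • v) (h' : ρ g' *ᵥ v = ζ ^ b • v) :
    ρ (g * g') *ᵥ v = ζ ^ (a + b) • v := by
  rw [map_mul, ← mulVec_mulVec, h', mulVec_smul, h, smul_smul, zpow_add₀ hζ, mul_comm]

theorem dihb_inv (hζ : ζ ≠ 0) (h : ρ g *ᵥ v = ζ ^ a • v) : ρ g⁻¹ *ᵥ v = ζ ^ (-a) • v := by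
  have h1 : ρ g⁻¹ *ᵥ (ρ g *ᵥ v) = v := by
    rw [mulVec_mulVec, ← map_mul, inv_mul_cancel, map_one, one_mulVec]
  rw [h, mulVec_smul] at h1
  rw [_root_.zpow_neg, eq_inv_smul_iff₀ (zpow_ne_zero a hζ), h1]

theorem dihb_val [Finite H] (hζ : IsPrimitiveRoot ζ (Nat.card H)) {c : ℂ}
    (h : ρ g *ᵥ v = c • v) : ∃ a : ℤ, ρ g *ᵥ v = ζ ^ a • v := by
  rcases eq_or_ne v 0 with rfl | hv
  · exact ⟨0, by simp⟩
  have h1 : ∀ n : ℕ, ρ (g ^ n) *ᵥ v = c ^ n • v := fun n => by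
    induction n with
    | zero => simp
    | succ n ih => rw [pow_succ, map_mul, ← mulVec_mulVec, h, mulVec_smul, ih, smul_smul, pow_succ']
  have h2 := h1 (Nat.card H)
  rw [pow_card_eq_one', map_one, one_mulVec] at h2
  have h3 : c ^ Nat.card H = 1 :=
    smul_left_injective ℂ hv (show c ^ Nat.card H • v = (1 : ℂ) • v by rw [← h2, one_smul])
  have : NeZero (Nat.card H) := ⟨Nat.card_pos.ne'⟩
  obtain ⟨i, -, hi⟩ := hζ.eq_pow_of_pow_eq_one h3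
  exact ⟨i, by rw [zpow_natCast, hi, h]⟩

end

/-- `K = max 1 K'` with `K'` from `euclid q`. Fix `x₀ ∈ T` and a primitive root of unity `ζ` of
order `Nat.card H`. Put `V y u := y * y = 1 ∧ x₀ * y ∈ B ∧ ∃ a : ℤ, u = rf a ∧
ρ (x₀ * y) *ᵥ v = ζ ^ a • v`. Every member of `T` has a value. For involutions
`x₀ * (z * y * z) = (x₀ * z) * (x₀ * y)⁻¹ * (x₀ * z)`, which gives the hypothesis of `Hur.lift_rel`
(`rf_conj`, `rf_inv`). At the end `x * y = (x₀ * x)⁻¹ * (x₀ * y)` and `rf_inj`. -/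
theorem dih_step (q : ℕ) : ∃ K : ℕ, ∀ (H : Type) [Group H] [Finite H] (m : ℕ) (ρ : H →* Mt m)
    (B : Subgroup H) (v : Fin m → ℂ) (T : List H), (∀ x ∈ B, ∃ c : ℂ, ρ x *ᵥ v = c • v) →
    K ≤ T.length → (∀ x ∈ T, x * x = 1) → (∀ x ∈ T, ∀ y ∈ T, x * y ∈ B) →
    ∃ T' R, Hur T (T' ++ R) ∧ T'.length = q ∧ (∀ x ∈ T', x * x = 1) ∧
      ∀ x ∈ T', ∀ y ∈ T', x * y ∈ B ∧ ρ (x * y) *ᵥ v = v := by
  obtain ⟨K, hK⟩ := euclid q
  refine ⟨max 1 K, fun H _ _ m ρ B v T hB hT h2 hTB => ?_⟩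
  obtain ⟨x₀, hx₀⟩ := List.exists_mem_of_length_pos ((le_max_left _ _).trans hT)
  obtain ⟨ζ, hζ⟩ : ∃ ζ : ℂ, IsPrimitiveRoot ζ (Nat.card H) :=
    ⟨_, Complex.isPrimitiveRoot_exp _ Nat.card_pos.ne'⟩
  have hζ0 : ζ ≠ 0 := hζ.ne_zero Nat.card_pos.ne'
  let V : H → Equiv.Perm ℤ → Prop := fun y u =>
    y * y = 1 ∧ x₀ * y ∈ B ∧ ∃ a : ℤ, u = rf a ∧ ρ (x₀ * y) *ᵥ v = ζ ^ a • v
  have hinv : ∀ {y u}, V y u → y⁻¹ = y ∧ u⁻¹ = u := fun ⟨h1, _, a, ha, _⟩ =>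
    ⟨inv_eq_of_mul_eq_one_right h1, by rw [ha, rf_inv]⟩
  have hc : ∀ {z w y u}, V z w → V y u → V (z * y * z) (w * u * w) := by
    rintro z w y u ⟨z1, z2, b, rfl, z3⟩ ⟨y1, y2, a, rfl, y3⟩
    have e : x₀ * (z * y * z) = x₀ * z * (x₀ * y)⁻¹ * (x₀ * z) := by
      rw [_root_.mul_inv_rev, inv_eq_of_mul_eq_one_right y1]
      group
    refine ⟨?_, ?_, 2 * b - a, rf_conj b a, ?_⟩
    · calc z * y * z * (z * y * z) = z * (y * (z * z) * y) * z := by simp only [mul_assoc]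
        _ = 1 := by rw [z1, mul_one, y1, mul_one, z1]
    · rw [e]
      exact B.mul_mem (B.mul_mem z2 (B.inv_mem y2)) z2
    · rw [e, show 2 * b - a = b + -a + b by ring]
      exact dihb_mul hζ0 (dihb_mul hζ0 z3 (dihb_inv hζ0 y3)) z3
  have hval : ∀ x : H, ∃ a : ℤ, x ∈ T → V x (rf a) := fun x => by
    by_cases hx : x ∈ T
    · obtain ⟨c, hc⟩ := hB _ (hTB x₀ hx₀ x hx)
      obtain ⟨a, ha⟩ := dihb_val hζ hc
      exact ⟨a, fun _ => ⟨h2 x hx, hTB x₀ hx₀ x hx, a, rfl, ha⟩⟩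
    · exact ⟨0, fun h => absurd h hx⟩
  choose val hval using hval
  obtain ⟨a, R, hR⟩ := hK (T.map val) (by rw [List.length_map]; exact (le_max_right _ _).trans hT)
  have hF : List.Forall₂ V T ((T.map val).map rf) := by
    rw [List.forall₂_map_right_iff, List.forall₂_map_right_iff, List.forall₂_same]
    exact hval
  obtain ⟨l, hl, hF'⟩ := Hur.lift_rel (V := V) (fun x u y w hx hy => by
    rw [(hinv hx).1, (hinv hx).2, (hinv hy).1, (hinv hy).2]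
    exact ⟨hc hy hx, hc hx hy⟩) hF hR
  have hT' := List.forall₂_take_append _ _ _ hF'
  have hm : ∀ x ∈ l.take (List.replicate q (rf a)).length,
      x * x = 1 ∧ x₀ * x ∈ B ∧ ρ (x₀ * x) *ᵥ v = ζ ^ a • v := fun x hx => by
    obtain ⟨u, hu, h1, h3, b, hb, h4⟩ := dihb_mem hT' x hx
    rw [List.eq_of_mem_replicate hu] at hb
    exact ⟨h1, h3, by rw [rf_inj hb, h4]⟩
  refine ⟨_, l.drop (List.replicate q (rf a)).length, by rw [List.take_append_drop]; exact hl,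
    hT'.length_eq.trans List.length_replicate, fun x hx => (hm x hx).1, fun x hx y hy => ?_⟩
  obtain ⟨x1, x2, x3⟩ := hm x hx
  obtain ⟨-, y2, y3⟩ := hm y hy
  have e : x * y = (x₀ * x)⁻¹ * (x₀ * y) := by
    rw [_root_.mul_inv_rev, inv_eq_of_mul_eq_one_right x1]
    group
  rw [e]
  refine ⟨B.mul_mem (B.inv_mem x2) y2, ?_⟩
  rw [dihb_mul hζ0 (dihb_inv hζ0 x3) y3, neg_add_cancel, zpow_zero, one_smul]

end Pool.Agent.GR.GC
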