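import Pool.Agent.Lib.MP_aa40d3_nt.GD.EucA

/-! Reflections of the integers: many equal members. -/

namespace Pool.Agent.GR.GC

/-- Induction on `n`: use `h` on the first three members and continue with `c' :: rest`
(`Hur.app_left`, `Hur.app_right`). -/
theorem euc_pair {G : Type} [Group G] (f : ℤ → List G)
    (h : ∀ a b c, ∃ a' c', Hur (f a ++ f b ++ f c) (f a' ++ f a' ++ f c')) (n : ℕ) (as : List ℤ)
    (hn : 2 * n + 1 ≤ as.length) : ∃ (bs : List ℤ) (R : List G), bs.length = n ∧
      Hur (as.flatMap f) (bs.flatMap (fun a => f a ++ f a) ++ R) := by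
  induction n generalizing as with
  | zero => exact ⟨[], as.flatMap f, rfl, Hur.refl _⟩
  | succ n ih =>
    match as, hn with
    | a :: b :: c :: rest, hn =>
      obtain ⟨a', c', h1⟩ := h a b c
      obtain ⟨bs, R, hb, h2⟩ := ih (c' :: rest) (by
        simp only [List.length_cons] at hn ⊢
        omega)
      refine ⟨a' :: bs, R, by rw [List.length_cons, hb], ?_⟩
      have h3 := h1.app_right (rest.flatMap f)
      have h4 := h2.app_left (f a' ++ f a')
      simp only [List.flatMap_cons, List.append_assoc] at h3 h4 ⊢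
      exact h3.trans h4
    | [], hn => simp at hn
    | [_], hn => simp at hn
    | [_, _], hn => simp only [List.length_cons, List.length_nil] at hn; omega

theorem euc_blocks (j n : ℕ) : ∃ K : ℕ, ∀ as : List ℤ, K ≤ as.length →
    ∃ (bs : List ℤ) (R : List (Equiv.Perm ℤ)), bs.length = n ∧
      Hur (as.map rf) (bs.flatMap (fun a => List.replicate (2 ^ j) (rf a)) ++ R) := by
  induction j generalizing n with
  | zero =>
    refine ⟨n, fun as hn => ⟨as.take n, (as.drop n).map rf, List.length_take_of_le hn, ?_⟩⟩
    have e : (as.take n).flatMap (fun a => List.replicate (2 ^ 0) (rf a)) = (as.take n).map rf :=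
      List.map_eq_flatMap.symm
    rw [e, ← List.map_append, List.take_append_drop]
    exact Hur.refl _
  | succ j ih =>
    obtain ⟨K, hK⟩ := ih (2 * n + 1)
    refine ⟨K, fun as hn => ?_⟩
    obtain ⟨bs, R, hb, h1⟩ := hK as hn
    obtain ⟨bs', R', hb', h2⟩ := euc_pair (fun a => List.replicate (2 ^ j) (rf a))
      (fun a b c => by
        cases j with
        | zero => exact euc_one a b c
        | succ i =>
          rw [pow_succ']
          exact euc_blk (by positivity) a b c) n bs hb.ge
    refine ⟨bs', R' ++ R, hb', h1.trans ?_⟩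
    have h3 := h2.app_right R
    simp only [List.replicate_append_replicate, ← two_mul, ← pow_succ', List.append_assoc] at h3
    exact h3

/-- By induction on `j`, for all `n` a long list is equivalent to one that begins with `n` blocks
`replicate (2 ^ j) (rf a)`: `euc_pair` with `euc_one` for `j = 0` and `euc_blk` for `0 < j`.
Take `n = 1` and `q ≤ 2 ^ q`. -/
theorem euclid (q : ℕ) : ∃ K : ℕ, ∀ as : List ℤ, K ≤ as.length →
    ∃ a R, Hur (as.map rf) (List.replicate q (rf a) ++ R) := by
  obtain ⟨K, hK⟩ := euc_blocks q 1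
  refine ⟨K, fun as hn => ?_⟩
  obtain ⟨bs, R, hb, h⟩ := hK as hn
  obtain ⟨a, rfl⟩ := List.length_eq_one_iff.1 hb
  obtain ⟨t, ht⟩ := Nat.exists_eq_add_of_le (Nat.lt_two_pow_self (n := q)).le
  refine ⟨a, List.replicate t (rf a) ++ R, ?_⟩
  rw [← List.append_assoc, List.replicate_append_replicate, ← ht]
  simpa using h

end Pool.Agent.GR.GC
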