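import Pool.Agent.Lib.MP_aa40d3_nt.GC.Hur

/-! Reflections of the integers: three members. -/

namespace Pool.Agent.GR.GC

/-- The reflection `x ↦ a - x`. -/
def rf (a : ℤ) : Equiv.Perm ℤ := Equiv.subLeft a

theorem rf_sq (a : ℤ) : rf a * rf a = 1 := by
  ext x
  simp [rf]

theorem rf_inv (a : ℤ) : (rf a)⁻¹ = rf a := inv_eq_of_mul_eq_one_right (rf_sq a)

theorem rf_conj (a b : ℤ) : rf a * rf b * rf a = rf (2 * a - b) := by
  ext x
  simp only [rf, Equiv.Perm.mul_apply, Equiv.subLeft_apply]
  ring

theorem rf_inj : Function.Injective rf := fun a b h => by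
  simpa [rf] using DFunLike.congr_fun h 0

theorem euca_ind (P : ℤ → ℤ → ℤ → Prop) (h0 : ∀ a c, P a a c)
    (m1 : ∀ a b c, P b (2 * b - a) c → P a b c) (m2 : ∀ a b c, P (2 * a - b) a c → P a b c)
    (m3 : ∀ a b c, P a c (2 * c - b) → P a b c) (m4 : ∀ a b c, P a (2 * b - c) b → P a b c)
    (a b c : ℤ) : P a b c := by
  induction hn : (b - a).natAbs + (c - b).natAbs using Nat.strong_induction_on
    generalizing a b c with
  | _ n ih =>
    by_cases h1 : b = a
    · rw [h1]
      exact h0 _ _
    by_cases h2 : c = b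
    · rw [h2]
      exact m2 _ _ _ (m4 _ _ _ (h0 _ _))
    by_cases h3 : (a < b ↔ b < c)
    · by_cases h4 : (c - b).natAbs ≤ (b - a).natAbs
      · exact m4 _ _ _ (ih _ (by omega) _ _ _ rfl)
      · exact m1 _ _ _ (ih _ (by omega) _ _ _ rfl)
    · by_cases h4 : (c - b).natAbs ≤ (b - a).natAbs
      · exact m3 _ _ _ (ih _ (by omega) _ _ _ rfl)
      · exact m2 _ _ _ (ih _ (by omega) _ _ _ rfl)

theorem euca_gen (L : ℤ → List (Equiv.Perm ℤ))
    (hl : ∀ a b, Hur (L a ++ L b) (L b ++ L (2 * b - a)))
    (hr : ∀ a b, Hur (L a ++ L b) (L (2 * a - b) ++ L a)) (a b c : ℤ) :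
    ∃ a' c', Hur (L a ++ L b ++ L c) (L a' ++ L a' ++ L c') := by
  refine euca_ind (fun a b c => ∃ a' c', Hur (L a ++ L b ++ L c) (L a' ++ L a' ++ L c'))
    (fun a c => ⟨a, c, Hur.refl _⟩) ?_ ?_ ?_ ?_ a b c
  · rintro a b c ⟨a', c', h⟩
    exact ⟨a', c', ((hl a b).app_right _).trans h⟩
  · rintro a b c ⟨a', c', h⟩
    exact ⟨a', c', ((hr a b).app_right _).trans h⟩
  · rintro a b c ⟨a', c', h⟩
    refine ⟨a', c', Hur.trans ?_ h⟩
    rw [List.append_assoc, List.append_assoc]
    exact (hl b c).app_left _
  · rintro a b c ⟨a', c', h⟩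
    refine ⟨a', c', Hur.trans ?_ h⟩
    rw [List.append_assoc, List.append_assoc]
    exact (hr b c).app_left _

theorem euca_prod (s : ℕ) (a : ℤ) : (List.replicate (2 * s) (rf a)).prod = 1 := by
  rw [List.prod_replicate, pow_mul, pow_two, rf_sq, one_pow]

theorem euca_swap (s : ℕ) (a : ℤ) (T : List (Equiv.Perm ℤ)) :
    Hur (T ++ List.replicate (2 * s) (rf a)) (List.replicate (2 * s) (rf a) ++ T) := by
  have h := hur_blockL T (List.replicate (2 * s) (rf a))
  simpa only [euca_prod, inv_one, one_mul, mul_one, List.map_id'] using h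

theorem euca_conj {s : ℕ} (hs : 0 < s) (a b : ℤ) :
    Hur (List.replicate (2 * s) (rf a) ++ List.replicate (2 * s) (rf b))
      (List.replicate (2 * s) (rf (2 * b - a)) ++ List.replicate (2 * s) (rf b)) := by
  have h1 := hur_oneL (List.replicate (2 * s) (rf a)) (rf b)
  rw [List.map_replicate, rf_inv, rf_conj] at h1
  have h2 := (h1.trans (euca_swap s (2 * b - a) [rf b])).app_right
    (List.replicate (2 * s - 1) (rf b))
  have e : [rf b] ++ List.replicate (2 * s - 1) (rf b) = List.replicate (2 * s) (rf b) := by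
    rw [List.singleton_append, ← List.replicate_succ]
    congr 1
    omega
  rwa [List.append_assoc, List.append_assoc, e] at h2

/-- With `u = b - a`, `v = c - b` the four moves are `(u, v) ↦ (u, v ± u)` and `(u ± v, v)`.
Euclid's algorithm: induction on `u.natAbs + v.natAbs`; if `v = 0` go to `(u, u)` and `(0, u)`. -/
theorem euc_one (a b c : ℤ) : ∃ a' c', Hur [rf a, rf b, rf c] [rf a', rf a', rf c'] := by
  refine euca_gen (fun a => [rf a]) (fun a b => ?_) (fun a b => ?_) a b c
  · have h := hur_oneL [rf a] (rf b)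
    rwa [List.map_singleton, rf_inv, rf_conj] at h
  · have h := hur_oneR (rf a) [rf b]
    rwa [List.map_singleton, rf_inv, rf_conj] at h

/-- A block `replicate (2 * s) (rf a)` has product one, so blocks can be exchanged
(`hur_blockL`, `hur_blockR`), and a block can be conjugated by one member of a neighbour: pass it
over the first member (`hur_blockL`), then move it back over this member without change. So
`a` can be replaced by `2 * b - a`. For three different integers reflect one of the extreme ones in
the middle one; this lowers `max - min` (or the sum of the distances). -/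
theorem euc_blk {s : ℕ} (hs : 0 < s) (a b c : ℤ) : ∃ a' c',
    Hur (List.replicate (2 * s) (rf a) ++ List.replicate (2 * s) (rf b) ++
      List.replicate (2 * s) (rf c))
      (List.replicate (2 * s) (rf a') ++ List.replicate (2 * s) (rf a') ++
        List.replicate (2 * s) (rf c')) := by
  exact euca_gen (fun a => List.replicate (2 * s) (rf a))
    (fun a b => (euca_conj hs a b).trans (euca_swap s b _))
    (fun a b => (euca_swap s b _).trans (euca_conj hs b a)) a b c

end Pool.Agent.GR.GC
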