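import Pool.Agent.Lib.MP_aa40d3_nt.GC.Stmt

/-! Direct images along connected coverings of the line. -/

open Polynomial Matrix

namespace Pool.Agent.GR.GC

variable {n N : ℕ}

/-- As `Cover`, and the nonzero members of the algebra have nonzero determinant. -/
def CoverF (d b : ℕ) (t : Fin n → ℂ) (A : Fin n → Matrix (Fin N) (Fin N) ℂ) : Prop :=
  ∃ W : Subalgebra ℂ[X] (Matrix (Fin N) (Fin N) ℂ[X]), (∀ Φ ∈ W, Φ ≠ 0 → Φ.det ≠ 0) ∧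
    (∀ Φ ∈ W, dl t • Φ.map derivative - (pm t A * Φ - Φ * pm t A) ∈ W) ∧
      (∀ Φ ∈ W, ∀ Ψ ∈ W, Φ * Ψ = Ψ * Φ) ∧ Module.finrank ℂ[X] W = d ∧
        ∃ M : Finset (Fin n), b ≤ M.card ∧ ∀ i ∈ M, RamAt t A W i

end Pool.Agent.GR.GC
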